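import Pool.Agent.U838.RT.Main

/-!
# Finite reflection groups in groups acting on the universal cover
-/

set_option autoImplicit false

namespace Pool.Agent.U838.RT

open Pool.Agent.H919R4.ZS (FinRes toRed)
open Pool.Agent.Q169.FT (Refl IsSub IsCo IsCb HcZ Inh fc)
open Pool.Agent.Q169.ZD (par)
open Pool.Agent.TH38.CX (AcyclicGComplex)
open Pool.Agent.U838.FT (par_mono simple_mem_par)

noncomputable section

variable {G : Type} [Group G]

/-- the restriction of the action to a subgroup -/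
def resN (U : AcyclicGComplex G) (N : Subgroup G) : AcyclicGComplex N where
  E := U.E
  act i := (inferInstance : MulAction N (U.E i))
  bd := U.bd
  bd_smul i g x := U.bd_smul i g x
  len := U.len
  isEmpty := U.isEmpty
  nonempty := U.nonempty
  exact_zero := U.exact_zero
  exact_succ := U.exact_succ

theorem co_res (U : AcyclicGComplex G) (N : Subgroup G) (i : ℕ) (z : U.E i →₀ ℤ) :
    IsCo (resN U N) i z ↔ IsCo U i z := Iff.rfl

theorem cb_res (U : AcyclicGComplex G) (N : Subgroup G) (i : ℕ) (z : U.E i →₀ ℤ) :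
    IsCb (resN U N) i z ↔ IsCb U i z := by
  cases i
  · exact Iff.rfl
  · exact Iff.rfl

theorem hcz_res (U : AcyclicGComplex G) (N : Subgroup G) (n : ℕ) :
    HcZ (resN U N) n ↔ HcZ U n := by
  cases n
  · exact Iff.rfl
  · exact Iff.rfl

theorem cofin {E : Type} [MulAction G E] (N : Subgroup G) [N.FiniteIndex] (B : Subgroup G)
    (S : Set E) (s : Finset E) (h : ∀ e ∈ S, ∃ b ∈ B, b • e ∈ s) :
    ∃ s' : Finset E, ∀ e ∈ S, ∃ a ∈ N ⊓ B, a • e ∈ s' := by
  classical
  have : Finite (G ⧸ N) := inferInstance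
  have : Fintype (G ⧸ N) := Fintype.ofFinite _
  let r : G ⧸ N → G := fun q => if h : ∃ b ∈ B, (QuotientGroup.mk b : G ⧸ N) = q then h.choose else 1
  refine ⟨Finset.univ.biUnion fun q : G ⧸ N => s.image fun x => (r q)⁻¹ • x, fun e he => ?_⟩
  obtain ⟨b, hb, hbe⟩ := h e he
  have h1 : ∃ b' ∈ B, (QuotientGroup.mk b' : G ⧸ N) = QuotientGroup.mk b := ⟨b, hb, rfl⟩
  have h2 : r (QuotientGroup.mk b) = h1.choose := dif_pos h1
  have h3 := h1.choose_spec
  rw [← h2] at h3
  refine ⟨(r (QuotientGroup.mk b))⁻¹ * b, ⟨?_, B.mul_mem (B.inv_mem h3.1) hb⟩, ?_⟩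
  · exact QuotientGroup.eq.1 h3.2
  · rw [Finset.mem_biUnion]
    refine ⟨QuotientGroup.mk b, Finset.mem_univ _, ?_⟩
    rw [Finset.mem_image]
    exact ⟨b • e, hbe, (mul_smul _ _ _).symm⟩

section fixed

variable {U : AcyclicGComplex G} {K : Subgroup G} {T : Type} {M : CoxeterMatrix T}
  {cs : CoxeterSystem M K} {C : ∀ i, Set (U.E i)} {mir : ∀ i, U.E i → Set T}

/-- The face of all the walls is the fixed set. -/
theorem fix_iff (h : RA (bdU U) cs C mir) (i : ℕ) (x : U.E i) :
    x ∈ fc C mir Set.univ i ↔ ∀ k ∈ K, k • x = x := by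
  constructor
  · rintro ⟨hx, hm⟩ k hk
    have h1 : (⟨k, hk⟩ : K) • x = (1 : K) • x := by
      rw [h.inj i x hx x hx]
      refine ⟨rfl, ?_⟩
      have : mir i x = Set.univ := Set.univ_subset_iff.1 hm
      rw [this, par_univ]
      trivial
    rw [one_smul] at h1
    exact h1
  · intro hx
    obtain ⟨e, he, w, rfl⟩ := h.surj i x trivial
    have h1 : ∀ k : K, k ∈ par cs (mir i e) := by
      intro k
      have h2 : (w * k⁻¹ * w⁻¹ : K) • (w • e) = w • e := hx _ (w * k⁻¹ * w⁻¹ : K).2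
      have h3 : (w * k⁻¹) • e = w • e := by
        rw [← mul_smul, inv_mul_cancel_right] at h2
        exact h2
      have h4 := ((h.inj i e he e he _ _).1 h3).2
      rwa [mul_inv_rev, inv_inv, inv_mul_cancel_right] at h4
    have h2 : mir i e = Set.univ := by
      refine Set.eq_univ_of_forall fun t => ?_
      exact Q27.Cox.mem_of_simple_mem_P (cs := cs) (h1 (cs.simple t))
    have h3 : w • e = e := by
      have h4 : w • e = (1 : K) • e := by
        rw [h.inj i e he e he]
        exact ⟨rfl, h1 _⟩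
      rw [h4, one_smul]
    change w • e ∈ _
    rw [h3]
    exact ⟨he, h2.symm ▸ subset_rfl⟩

theorem norm_fix (h : RA (bdU U) cs C mir) (g : G) (hg : g ∈ Subgroup.normalizer (K : Set G))
    (i : ℕ) (x : U.E i) (hx : x ∈ fc C mir Set.univ i) : g • x ∈ fc C mir Set.univ i := by
  rw [fix_iff h] at hx ⊢
  intro k hk
  have h1 : g⁻¹ * k * g ∈ K := by
    have := (Subgroup.mem_normalizer_iff.1 (Subgroup.inv_mem _ hg) k).1 hk
    rwa [inv_inv] at this
  have h2 := hx _ h1
  rw [mul_assoc, mul_smul, inv_smul_eq_iff, mul_smul] at h2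
  exact h2

/-- the normaliser acts cocompactly on the fixed set -/
theorem norm_cof (h : RA (bdU U) cs C mir) (i : ℕ) (s : Finset (U.E i))
    (hs : ∀ e : U.E i, ∃ g : G, g • e ∈ s)
    (hst : ∀ e : U.E i, Finite (MulAction.stabilizer G e)) :
    ∃ s' : Finset (U.E i), ∀ e ∈ fc C mir Set.univ i,
      ∃ g ∈ Subgroup.normalizer (K : Set G), g • e ∈ s' := by
  classical
  -- the pairs of a representative and a subgroup of its stabiliser
  have hfin : ∀ a : U.E i, {P : Subgroup G | P ≤ MulAction.stabilizer G a}.Finite := by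
    intro a
    have := hst a
    have h1 : Finite (Set (MulAction.stabilizer G a)) := inferInstance
    refine Set.Finite.of_finite_image (f := fun P : Subgroup G =>
      {x : MulAction.stabilizer G a | (x : G) ∈ P}) (Set.toFinite _) ?_
    intro P hP Q hQ hPQ
    ext x
    constructor
    · intro hx
      have : (⟨x, hP hx⟩ : MulAction.stabilizer G a) ∈
          {x : MulAction.stabilizer G a | (x : G) ∈ P} := hx
      change {x : MulAction.stabilizer G a | (x : G) ∈ P} =
        {x : MulAction.stabilizer G a | (x : G) ∈ Q} at hPQ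
      rw [hPQ] at this
      exact this
    · intro hx
      have : (⟨x, hQ hx⟩ : MulAction.stabilizer G a) ∈
          {x : MulAction.stabilizer G a | (x : G) ∈ Q} := hx
      change {x : MulAction.stabilizer G a | (x : G) ∈ P} =
        {x : MulAction.stabilizer G a | (x : G) ∈ Q} at hPQ
      rw [← hPQ] at this
      exact this
  have hfin2 : {p : U.E i × Subgroup G | p.1 ∈ s ∧ p.2 ≤ MulAction.stabilizer G p.1}.Finite := by
    have h1 : {p : U.E i × Subgroup G | p.1 ∈ s ∧ p.2 ≤ MulAction.stabilizer G p.1} ⊆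
        ⋃ a ∈ s, (fun P => (a, P)) '' {P : Subgroup G | P ≤ MulAction.stabilizer G a} := by
      rintro ⟨a, P⟩ ⟨ha, hP⟩
      simp only [Set.mem_iUnion]
      exact ⟨a, ha, P, hP, rfl⟩
    exact (Set.Finite.biUnion s.finite_toSet fun a _ => (hfin a).image _).subset h1
  let cj : G → Subgroup G := fun g => K.map (MulAut.conj g⁻¹).toMonoidHom
  let f : U.E i × Subgroup G → U.E i := fun p =>
    if hp : ∃ g : G, cj g = p.2 then hp.choose • p.1 else p.1
  refine ⟨hfin2.toFinset.image f, fun e he => ?_⟩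
  obtain ⟨g, hg⟩ := hs e
  -- `e = g⁻¹ • a`
  have hx := (fix_iff h i e).1 he
  have hP : cj g⁻¹ ≤ MulAction.stabilizer G (g • e) := by
    rintro _ ⟨k, hk, rfl⟩
    rw [MulAction.mem_stabilizer_iff]
    change (g⁻¹⁻¹ * k * g⁻¹⁻¹⁻¹) • g • e = g • e
    rw [inv_inv, mul_smul, ← mul_smul g⁻¹, inv_mul_cancel, one_smul, mul_smul, hx k hk]
  have hp : ∃ g' : G, cj g' = cj g⁻¹ := ⟨g⁻¹, rfl⟩
  refine ⟨hp.choose * g, ?_, ?_⟩
  · have h1 : K.map (MulAut.conj (hp.choose)⁻¹).toMonoidHom = K.map (MulAut.conj g⁻¹⁻¹).toMonoidHom :=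
      hp.choose_spec
    set g' := hp.choose
    rw [inv_inv] at h1
    have key : ∀ x : G, x ∈ K ↔ g * x * g⁻¹ ∈ K.map (MulAut.conj g).toMonoidHom := by
      intro x
      constructor
      · intro hx
        exact ⟨x, hx, rfl⟩
      · rintro ⟨y, hy, hxy⟩
        change g * y * g⁻¹ = g * x * g⁻¹ at hxy
        have : y = x := by simpa using hxy
        rw [← this]
        exact hy
    have key' : ∀ x : G, x ∈ K ↔ g'⁻¹ * x * g' ∈ K.map (MulAut.conj g'⁻¹).toMonoidHom := by
      intro x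
      constructor
      · intro hx
        refine ⟨x, hx, ?_⟩
        change g'⁻¹ * x * g'⁻¹⁻¹ = _
        rw [inv_inv]
      · rintro ⟨y, hy, hxy⟩
        change g'⁻¹ * y * g'⁻¹⁻¹ = g'⁻¹ * x * g' at hxy
        rw [inv_inv] at hxy
        have : y = x := by simpa using hxy
        rw [← this]
        exact hy
    rw [Subgroup.mem_normalizer_iff]
    intro x
    rw [key x, ← h1, key' (g' * g * x * (g' * g)⁻¹)]
    have e1 : g'⁻¹ * (g' * g * x * (g' * g)⁻¹) * g' = g * x * g⁻¹ := by group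
    rw [e1]
  · rw [Finset.mem_image]
    refine ⟨(g • e, cj g⁻¹), ?_, ?_⟩
    · rw [Set.Finite.mem_toFinset]
      exact ⟨hg, hP⟩
    · change (if hp : ∃ g' : G, cj g' = cj g⁻¹ then hp.choose • (g • e) else g • e) = _
      rw [dif_pos hp, mul_smul]

end fixed

theorem dual_res {U : AcyclicGComplex G} {T K : Type} [Group K]
    {M : CoxeterMatrix T} {cs : CoxeterSystem M K} {A : ∀ i, K → U.E i → U.E i}
    {C : ∀ i, Set (U.E i)} {mir : ∀ i, U.E i → Set T} {n : ℕ} (h : Dual U cs A C mir n)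
    (N : Subgroup G) : Dual (resN U N) cs A C mir n where
  hcz := (hcz_res U N n).2 h.hcz
  van i hi z hz := (cb_res U N i z).2 (h.van i hi z hz)
  sign := h.sign.imp (fun h1 t z hz => (cb_res U N n _).2 (h1 t z hz)) id

/-- zero in the spectrum for orbifold covers with a large finite reflection group -/
theorem orb (U : AcyclicGComplex G)
    (hst : ∀ i (e : U.E i), Finite (MulAction.stabilizer G e))
    (hcof : ∀ i, ∃ s : Finset (U.E i), ∀ e : U.E i, ∃ g : G, g • e ∈ s)
    (K : Subgroup G) {T : Type} {M : CoxeterMatrix T} (cs : CoxeterSystem M K)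
    (C : ∀ i, Set (U.E i)) (mir : ∀ i, U.E i → Set T) (hR : RA (bdU U) cs C mir)
    (N : Subgroup G) [N.FiniteIndex] (hN : ∀ i, ∀ g ∈ N, ∀ e : U.E i, g • e = e → g = 1)
    (h : (∃ (Y : FinRes ((Subgroup.normalizer (K : Set G)).subgroupOf N)) (i : ℕ),
      Nontrivial (Y.homology (toRed _) i)) ∨
      ∃ n d, Dual U cs (fun _ k e => k • e) C mir n ∧ n = d + Nat.card T ∧ d ≤ 3) :
    Nonempty (FinRes N) ∧ ∀ X : FinRes N, ∃ i, Nontrivial (X.homology (toRed N) i) := by
  have h1 : ∀ i, ∃ (c : ℕ) (rep : Fin c → (resN U N).E i), ∀ e,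
      ∃! a, e ∈ MulAction.orbit N (rep a) := by
    intro i
    obtain ⟨s, hs⟩ := hcof i
    obtain ⟨s', hs'⟩ := cofin N ⊤ (Set.univ : Set (U.E i)) s (fun e _ => by
      obtain ⟨g, hg⟩ := hs e
      exact ⟨g, trivial, hg⟩)
    refine exists_rep (L := N) (E := (resN U N).E i) s' fun e => ?_
    obtain ⟨a, ha, hae⟩ := hs' e trivial
    exact ⟨⟨a, ha.1⟩, hae⟩
  choose c rep hrep using h1
  exact main (resN U N) (fun i g e hge => Subtype.ext (hN i g g.2 e hge)) c rep hrep (K := K)
    cs (h0 := fun i => (inferInstance : MulAction K (U.E i))) C mir hR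
    ((Subgroup.normalizer (K : Set G)).subgroupOf N)
    (fun l hl i e he => norm_fix hR l hl i e he)
    (by
      intro i
      obtain ⟨s, hs⟩ := hcof i
      obtain ⟨s', hs'⟩ := norm_cof hR i s hs (hst i)
      obtain ⟨s'', hs''⟩ := cofin N _ _ s' hs'
      refine ⟨s'', fun e he => ?_⟩
      obtain ⟨a, ha, hae⟩ := hs'' e he
      exact ⟨⟨a, ha.1⟩, ha.2, hae⟩)
    (h.imp id fun ⟨n, d, hD, h2, h3⟩ => ⟨n, d, dual_res hD N, h2, h3⟩)

end

end Pool.Agent.U838.RT
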