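import Pool.Agent.U838.RT.Ref

/-!
# Chains and cochains with arbitrary supports; augmented complexes
-/

set_option autoImplicit false

namespace Pool.Agent.U838.RT

open Pool.Agent.Q169.FT (Refl IsSub)
open Pool.Agent.Q169.ZD (par)

noncomputable section

/-! ### Exactness of chains and of cochains -/

section exact

variable {R : Type} [AddCommGroup R] {F : ℕ → Type} (bd : ∀ i, F (i + 1) → (F i →₀ ℤ))

/-- all cochains -/
def top (R : Type) [AddCommGroup R] : Sp R bd where
  mem _ := ⊤
  cob _ _ _ := trivial
  pull _ _ _ _ _ _ _ _ := trivial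

/-- the boundary of a chain -/
def bL (i : ℕ) (x : F (i + 1) →₀ ℤ) : F i →₀ ℤ := x.sum fun e n => n • bd i e

theorem bL_add (i : ℕ) (x y : F (i + 1) →₀ ℤ) : bL bd i (x + y) = bL bd i x + bL bd i y :=
  sm_add x y _

theorem bL_single (i : ℕ) (e : F (i + 1)) (n : ℤ) : bL bd i (Finsupp.single e n) = n • bd i e :=
  sm_single e n _

/-- the boundary as a homomorphism -/
def bH (i : ℕ) : (F (i + 1) →₀ ℤ) →+ (F i →₀ ℤ) where
  toFun := bL bd i
  map_zero' := Finsupp.sum_zero_index
  map_add' := bL_add bd i

/-- the value of a cochain on a chain -/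
def ev (i : ℕ) (z : F i → R) : (F i →₀ ℤ) →+ R where
  toFun x := x.sum fun e n => n • z e
  map_zero' := Finsupp.sum_zero_index
  map_add' x y := sm_add x y z

theorem ev_single (i : ℕ) (z : F i → R) (e : F i) (n : ℤ) :
    ev i z (Finsupp.single e n) = n • z e := sm_single e n z

theorem ev_bH (i : ℕ) (z : F i → R) (x : F (i + 1) →₀ ℤ) :
    ev i z (bH bd i x) = ev (i + 1) (cb bd i z) x := by
  induction x using Finsupp.induction_linear with
  | zero => rw [map_zero, map_zero, map_zero]
  | add x y hx hy => rw [map_add, map_add, hx, hy, map_add]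
  | single e n =>
    rw [ev_single]
    change ev i z (bL bd i (Finsupp.single e n)) = _
    rw [bL_single, map_zsmul]
    rfl

/-- cycles -/
def Cyc : ∀ i, (F i →₀ ℤ) → Prop
  | 0 => fun _ => True
  | i + 1 => fun x => bH bd i x = 0

/-- the chain complex is exact (also at `F 0`) -/
def CE : Prop := ∀ i (x : F i →₀ ℤ), Cyc bd i x → ∃ y, bH bd i y = x

theorem cyc_bd (hdd : DD bd) (i : ℕ) (x : F (i + 1) →₀ ℤ) : Cyc bd i (bH bd i x) := by
  cases i with
  | zero => trivial
  | succ i =>
    change bH bd i (bH bd (i + 1) x) = 0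
    induction x using Finsupp.induction_linear with
    | zero => simp
    | add x y hx hy => rw [map_add, map_add, hx, hy, add_zero]
    | single e n =>
      change bH bd i (bL bd (i + 1) (Finsupp.single e n)) = 0
      rw [bL_single, map_zsmul]
      change n • ((bd (i + 1) e).sum fun f n => n • bd i f) = 0
      rw [hdd, smul_zero]

variable {bd}

theorem exists_t (hdd : DD bd) (h : CE bd) (i : ℕ) :
    ∃ t : (F i →₀ ℤ) →+ (F (i + 1) →₀ ℤ), ∀ x, Cyc bd i x → bH bd i (t x) = x := by
  induction i with
  | zero =>
    choose y hy using fun e : F 0 => h 0 (Finsupp.single e 1) trivial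
    refine ⟨ev 0 y, fun x _ => ?_⟩
    induction x using Finsupp.induction_linear with
    | zero => simp
    | add x x' hx hx' => rw [map_add, map_add, hx trivial, hx' trivial]
    | single e n =>
      rw [ev_single, map_zsmul, hy, Finsupp.smul_single, smul_eq_mul, mul_one]
  | succ i ih =>
    obtain ⟨t, ht⟩ := ih
    have h1 : ∀ e : F (i + 1), ∃ y, bH bd (i + 1) y =
        Finsupp.single e 1 - t (bH bd i (Finsupp.single e 1)) := by
      intro e
      refine h (i + 1) _ ?_
      change bH bd i _ = 0
      rw [map_sub, ht _ (cyc_bd bd hdd i _), sub_self]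
    choose y hy using h1
    refine ⟨ev (i + 1) y, fun x hx => ?_⟩
    have h2 : ∀ x, bH bd (i + 1) (ev (i + 1) y x) = x - t (bH bd i x) := by
      intro x
      induction x using Finsupp.induction_linear with
      | zero => simp
      | add x x' hx hx' => rw [map_add, map_add, hx, hx', map_add, map_add]; abel
      | single e n =>
        have h3 : Finsupp.single e n = n • Finsupp.single e (1 : ℤ) := by
          rw [Finsupp.smul_single, smul_eq_mul, mul_one]
        rw [ev_single, map_zsmul, hy, h3, map_zsmul, map_zsmul, smul_sub]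
    have hx' : bH bd i x = 0 := hx
    rw [h2, hx', map_zero, sub_zero]

theorem van_of_ce (hdd : DD bd) (h : CE bd) (i : ℕ) :
    (top bd R).Van (fun _ => Set.univ) i := by
  intro z hz
  obtain ⟨t, ht⟩ := exists_t hdd h i
  refine ⟨fun e => ev (i + 1) z (t (Finsupp.single e 1)), trivial,
    fun _ he => absurd trivial he, fun e _ => ?_⟩
  have h1 : ∀ x : F i →₀ ℤ, ev i (fun e => ev (i + 1) z (t (Finsupp.single e 1))) x =
      ev (i + 1) z (t x) := by
    intro x
    induction x using Finsupp.induction_linear with
    | zero => simp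
    | add x x' hx hx' => rw [map_add, hx, hx', map_add, map_add]
    | single e n =>
      have h3 : Finsupp.single e n = n • Finsupp.single e (1 : ℤ) := by
        rw [Finsupp.smul_single, smul_eq_mul, mul_one]
      rw [ev_single, h3, map_zsmul, map_zsmul]
  have h2 : bH bd i (t (bd i e) - Finsupp.single e 1) = 0 := by
    have h3 : bH bd i (Finsupp.single e 1) = bd i e := by
      change bL bd i _ = _
      rw [bL_single, one_smul]
    rw [map_sub, h3, ht, sub_self]
    rw [← h3]
    exact cyc_bd bd hdd i _
  obtain ⟨w, hw⟩ := h (i + 1) _ h2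
  have h4 : ev (i + 1) z (t (bd i e) - Finsupp.single e 1) = 0 := by
    rw [← hw, ev_bH]
    have h5 : cb bd (i + 1) z = fun _ => 0 := funext fun e => hz.closed e trivial
    rw [h5]
    change (w.sum fun e n => n • (0 : R)) = 0
    simp
  rw [map_sub, ev_single, one_smul] at h4
  change z e = ev i (fun e => ev (i + 1) z (t (Finsupp.single e 1))) (bd i e)
  rw [h1]
  exact (sub_eq_zero.1 h4).symm

/-- the chains with support in a set of cells -/
def chA (A : ∀ i, Set (F i)) (i : ℕ) : AddSubgroup (F i →₀ ℤ) where
  carrier := {x | ∀ e, x e ≠ 0 → e ∈ A i}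
  zero_mem' e he := absurd rfl he
  add_mem' := by
    intro x y hx hy e he
    by_contra h
    apply he
    have h1 : x e = 0 := by_contra fun h1 => h (hx e h1)
    have h2 : y e = 0 := by_contra fun h1 => h (hy e h1)
    rw [Finsupp.add_apply, h1, h2, add_zero]
  neg_mem' := by
    intro x hx e he
    refine hx e fun h => he ?_
    rw [Finsupp.neg_apply, h, neg_zero]

theorem ce_of_van (A : ∀ i, Set (F i)) (hA : IsSub bd A) (i : ℕ)
    (h : ∀ (R : Type) [AddCommGroup R], (top bd R).Van A i)
    (x : F (i + 1) →₀ ℤ) (hx : x ∈ chA A (i + 1)) (hx0 : bH bd i x = 0) :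
    ∃ y ∈ chA A (i + 2), bH bd (i + 1) y = x := by
  classical
  set B : AddSubgroup (F (i + 1) →₀ ℤ) := (chA A (i + 2)).map (bH bd (i + 1)) with hB
  have hz : (top bd ((F (i + 1) →₀ ℤ) ⧸ B)).Coc A i
      (fun e => if e ∈ A (i + 1) then QuotientAddGroup.mk (Finsupp.single e 1) else 0) := by
    refine ⟨trivial, fun e he => if_neg he, fun e he => ?_⟩
    have h1 : ∀ v : F (i + 1) →₀ ℤ, v ∈ chA A (i + 1) →
        (v.sum fun f n => n • (if f ∈ A (i + 1) then
          (QuotientAddGroup.mk (Finsupp.single f 1) : (F (i + 1) →₀ ℤ) ⧸ B) else 0)) =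
        QuotientAddGroup.mk v := by
      intro v hv
      conv_rhs => rw [← Finsupp.sum_single v]
      unfold Finsupp.sum
      rw [QuotientAddGroup.mk_sum]
      refine Finset.sum_congr rfl fun f hf => ?_
      change v f • (if f ∈ A (i + 1) then
          (QuotientAddGroup.mk (Finsupp.single f 1) : (F (i + 1) →₀ ℤ) ⧸ B) else 0) = _
      rw [if_pos (hv f (Finsupp.mem_support_iff.1 hf))]
      rw [← QuotientAddGroup.mk_zsmul, Finsupp.smul_single, smul_eq_mul, mul_one]
    change ((bd (i + 1) e).sum fun f n => n • (if f ∈ A (i + 1) then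
          (QuotientAddGroup.mk (Finsupp.single f 1) : (F (i + 1) →₀ ℤ) ⧸ B) else 0)) = 0
    rw [h1 _ fun f hf => hA (i + 1) e f he hf, QuotientAddGroup.eq_zero_iff]
    refine ⟨Finsupp.single e 1, fun f hf => ?_, ?_⟩
    · have : f = e := by
        by_contra h2
        exact hf (Finsupp.single_eq_of_ne h2)
      rw [this]
      exact he
    · change bL bd (i + 1) _ = _
      rw [bL_single, one_smul]
  obtain ⟨y, -, -, hy⟩ := h _ _ hz
  have h2 : (QuotientAddGroup.mk x : (F (i + 1) →₀ ℤ) ⧸ B) = ev i y (bH bd i x) := by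
    rw [ev_bH]
    change _ = x.sum fun e n => n • cb bd i y e
    conv_lhs => rw [← Finsupp.sum_single x]
    unfold Finsupp.sum
    rw [QuotientAddGroup.mk_sum]
    refine Finset.sum_congr rfl fun e he => ?_
    have he' := hx e (Finsupp.mem_support_iff.1 he)
    change _ = x e • cb bd i y e
    rw [← hy e he']
    change _ = x e • (if e ∈ A (i + 1) then
      (QuotientAddGroup.mk (Finsupp.single e 1) : (F (i + 1) →₀ ℤ) ⧸ B) else 0)
    rw [if_pos he', ← QuotientAddGroup.mk_zsmul, Finsupp.smul_single, smul_eq_mul,
      mul_one]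
  rw [hx0, map_zero, QuotientAddGroup.eq_zero_iff] at h2
  obtain ⟨y, hy, hyx⟩ := h2
  exact ⟨y, hy, hyx⟩

end exact

/-! ### Adding cells of dimension `-1` -/

/-- the cells, with the set `P` of cells of dimension `-1` -/
def Sh (P : Type) (E : ℕ → Type) : ℕ → Type
  | 0 => P
  | i + 1 => E i

/-- the sum of all cells of dimension `-1` -/
def oneP (P : Type) [Finite P] : P →₀ ℤ := Finsupp.equivFunOnFinite.symm fun _ => 1

/-- the boundary of a vertex is the sum of all cells of dimension `-1` -/
def bdS (P : Type) [Finite P] {E : ℕ → Type} (bd : ∀ i, E (i + 1) → (E i →₀ ℤ)) :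
    ∀ i, Sh P E (i + 1) → (Sh P E i →₀ ℤ)
  | 0 => fun _ => oneP P
  | i + 1 => bd i

/-- the trivial action in dimension `-1` -/
@[instance_reducible]
def trivAct (K P : Type) [Group K] : MulAction K P where
  smul _ x := x
  one_smul _ := rfl
  mul_smul _ _ _ := rfl

/-- the action -/
instance actS (K P : Type) [Group K] (E : ℕ → Type) [h : ∀ i, MulAction K (E i)] :
    ∀ i, MulAction K (Sh P E i)
  | 0 => trivAct K P
  | i + 1 => h i

/-- a family of sets of cells, with all cells of dimension `-1` -/
def setS (P : Type) {E : ℕ → Type} (C : ∀ i, Set (E i)) : ∀ i, Set (Sh P E i)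
  | 0 => Set.univ
  | i + 1 => C i

/-- all walls contain the cells of dimension `-1` -/
def mirS (P : Type) {E : ℕ → Type} {T : Type} (mir : ∀ i, E i → Set T) : ∀ i, Sh P E i → Set T
  | 0 => fun _ => Set.univ
  | i + 1 => mir i

section shift

variable {P : Type} [Finite P] {E : ℕ → Type} {bd : ∀ i, E (i + 1) → (E i →₀ ℤ)}
  {T : Type} {M : CoxeterMatrix T} {K : Type} [Group K] {cs : CoxeterSystem M K}
  [∀ i, MulAction K (E i)] {C : ∀ i, Set (E i)} {mir : ∀ i, E i → Set T}

theorem par_univ (cs : CoxeterSystem M K) : par cs (Set.univ : Set T) = ⊤ := by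
  unfold par
  rw [Set.image_univ, cs.subgroup_closure_range_simple]

theorem ra_shift (h : RA bd cs C mir) :
    RA (bdS P bd) cs (setS P C) (mirS P mir) where
  finite := h.finite
  sub i := by
    cases i with
    | zero => exact fun _ _ _ _ => trivial
    | succ i => exact h.sub i
  one i e _ := one_smul K e
  mem _ _ _ _ := trivial
  surj i := by
    cases i with
    | zero => exact fun x _ => ⟨x, trivial, 1, rfl⟩
    | succ i => exact h.surj i
  inj i := by
    cases i with
    | zero =>
      intro e _ e' _ w w'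
      constructor
      · intro h1
        refine ⟨h1, ?_⟩
        change _ ∈ par cs Set.univ
        rw [par_univ]
        trivial
      · exact fun h1 => h1.1
    | succ i => exact h.inj i
  face i := by
    cases i with
    | zero => exact fun _ _ _ _ => Set.subset_univ _
    | succ i => exact h.face i
  bd_smul i := by
    cases i with
    | zero =>
      intro e _ w
      change _ = Finsupp.mapDomain (fun f : P => f) _
      exact Finsupp.mapDomain_id.symm
    | succ i => exact h.bd_smul i

theorem dd_shift_empty (h : DD bd) : DD (bdS Empty bd) := by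
  intro i
  cases i with
  | zero =>
    intro e
    refine Finsupp.ext fun f => ?_
    exact (f : Empty).elim
  | succ i => exact h i

theorem dd_shift_unit (h : DD bd) (h0 : ∀ e : E 1, ((bd 0 e).sum fun _ n => n) = 0) :
    DD (bdS Unit bd) := by
  intro i
  cases i with
  | zero =>
    intro e
    have h1 : ((bd 0 e).sum fun f n => n • oneP Unit) =
        ((bd 0 e).sum fun _ n => n) • oneP Unit := by
      unfold Finsupp.sum
      rw [Finset.sum_smul]
    refine h1.trans ?_
    have h2 : ((bd 0 e).sum fun _ n => n) = 0 := h0 e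
    exact (congrArg (fun k : ℤ => k • oneP Unit) h2).trans (zero_smul ℤ _)
  | succ i => exact h i

end shift

end

end Pool.Agent.U838.RT
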