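import Mathlib

/-!
# Cohomology of locally closed sets of cells with coefficients and supports

`F i` are the `i`-cells of a cell complex with the boundaries `bd i e`. A set `S` of cells is
convex, if a cell between two cells of `S` is in `S`; then the cochains on `S` form a cochain
complex. If `Z ⊆ S` is closed in `S`, there is a long exact sequence for `Z` and `Y = S \ Z`.
-/

set_option autoImplicit false

namespace Pool.Agent.U838.RT

variable {R : Type} [AddCommGroup R] {F : ℕ → Type}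

/-- the coboundary of a cochain with values in `R` -/
def cb (bd : ∀ i, F (i + 1) → (F i →₀ ℤ)) (i : ℕ) (c : F i → R) : F (i + 1) → R :=
  fun e => (bd i e).sum fun f n => n • c f

/-- A space of cochains (with support or growth conditions) -/
structure Sp (R : Type) [AddCommGroup R] {F : ℕ → Type} (bd : ∀ i, F (i + 1) → (F i →₀ ℤ)) where
  /-- the cochains -/
  mem : ∀ i, AddSubgroup (F i → R)
  cob : ∀ i c, c ∈ mem i → cb bd i c ∈ mem (i + 1)
  pull : ∀ (i : ℕ) (c g : F i → R) (σ : F i → F i) (m : ℕ), c ∈ mem i →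
    (∀ x, g x ≠ 0 → g x = c (σ x)) → (∀ e, {x | g x ≠ 0 ∧ σ x = e}.encard ≤ m) → g ∈ mem i

variable {bd : ∀ i, F (i + 1) → (F i →₀ ℤ)}

theorem sm_add {α A : Type} [AddCommGroup A] (x y : α →₀ ℤ) (h : α → A) :
    ((x + y).sum fun f n => n • h f) = (x.sum fun f n => n • h f) + y.sum fun f n => n • h f :=
  Finsupp.sum_add_index' (fun a => zero_smul ℤ (h a)) (fun a b c => add_smul b c (h a))

theorem sm_single {α A : Type} [AddCommGroup A] (f : α) (n : ℤ) (h : α → A) :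
    ((Finsupp.single f n).sum fun f n => n • h f) = n • h f :=
  Finsupp.sum_single_index (zero_smul ℤ (h f))

theorem sm_smul {α A : Type} [AddCommGroup A] (n : ℤ) (x : α →₀ ℤ) (h : α → A) :
    ((n • x).sum fun f n => n • h f) = n • (x.sum fun f n => n • h f) := by
  rw [Finsupp.sum_smul_index (fun a => zero_smul ℤ (h a)), Finsupp.smul_sum]
  exact Finset.sum_congr rfl fun g _ => mul_smul _ _ _

theorem cb_congr (i : ℕ) (c c' : F i → R) (e : F (i + 1))
    (h : ∀ f, bd i e f ≠ 0 → c f = c' f) : cb bd i c e = cb bd i c' e := by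
  unfold cb
  refine Finsupp.sum_congr fun f hf => ?_
  rw [h f (Finsupp.mem_support_iff.1 hf)]

theorem cb_eq_zero (i : ℕ) (c : F i → R) (e : F (i + 1))
    (h : ∀ f, bd i e f ≠ 0 → c f = 0) : cb bd i c e = 0 := by
  rw [cb_congr i c (fun _ => 0) e h]
  unfold cb
  simp

theorem cb_add (i : ℕ) (c c' : F i → R) : cb bd i (c + c') = cb bd i c + cb bd i c' := by
  funext e
  unfold cb
  rw [Pi.add_apply, Finsupp.sum, Finsupp.sum, Finsupp.sum, ← Finset.sum_add_distrib]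
  exact Finset.sum_congr rfl fun f _ => by rw [Pi.add_apply, smul_add]

theorem cb_sub (i : ℕ) (c c' : F i → R) : cb bd i (c - c') = cb bd i c - cb bd i c' := by
  funext e
  unfold cb
  rw [Pi.sub_apply, Finsupp.sum, Finsupp.sum, Finsupp.sum, ← Finset.sum_sub_distrib]
  exact Finset.sum_congr rfl fun f _ => by rw [Pi.sub_apply, smul_sub]

theorem cb_zsmul (i : ℕ) (n : ℤ) (c : F i → R) : cb bd i (n • c) = n • cb bd i c := by
  funext e
  unfold cb
  rw [Pi.smul_apply, Finsupp.smul_sum]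
  refine Finset.sum_congr rfl fun f _ => ?_
  change _ • (n • c f) = n • (_ • c f)
  rw [smul_comm]

theorem cb_zero (i : ℕ) : cb bd i (0 : F i → R) = 0 := by
  funext e
  exact cb_eq_zero i _ e fun _ _ => rfl

/-- `∂ ∂ = 0` -/
def DD (bd : ∀ i, F (i + 1) → (F i →₀ ℤ)) : Prop :=
  ∀ i (e : F (i + 2)), ((bd (i + 1) e).sum fun f n => n • bd i f) = 0

theorem cb_cb (hdd : DD bd) (i : ℕ) (c : F i → R) : cb bd (i + 1) (cb bd i c) = 0 := by
  funext e
  have h1 : ∀ x : F (i + 1) →₀ ℤ, (x.sum fun f n => n • cb bd i c f) =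
      (x.sum fun f n => n • bd i f).sum fun g m => m • c g := by
    intro x
    induction x using Finsupp.induction_linear with
    | zero => rw [Finsupp.sum_zero_index, Finsupp.sum_zero_index, Finsupp.sum_zero_index]
    | add x y hx hy => rw [sm_add, hx, hy, sm_add, sm_add]
    | single f n => rw [sm_single, sm_single, sm_smul, cb]
  change ((bd (i + 1) e).sum fun f n => n • cb bd i c f) = 0
  rw [h1, hdd]
  rfl

namespace Sp

variable (𝓕 : Sp R bd)

theorem ind {i : ℕ} {c : F i → R} (hc : c ∈ 𝓕.mem i) (S : Set (F i)) :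
    S.indicator c ∈ 𝓕.mem i := by
  classical
  refine 𝓕.pull i c _ id 1 hc (fun x hx => ?_) (fun e => ?_)
  · rw [Set.indicator_apply] at hx ⊢
    split_ifs at hx ⊢ with h
    · rfl
    · exact absurd rfl hx
  · have h1 : {x | S.indicator c x ≠ 0 ∧ id x = e} ⊆ {e} := fun x hx => hx.2
    exact (Set.encard_le_encard h1).trans (by rw [Set.encard_singleton]; rfl)

/-- relative cocycles on `S` -/
structure Coc (S : ∀ i, Set (F i)) (i : ℕ) (z : F (i + 1) → R) : Prop where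
  mem : z ∈ 𝓕.mem (i + 1)
  supp : ∀ e ∉ S (i + 1), z e = 0
  closed : ∀ e ∈ S (i + 2), cb bd (i + 1) z e = 0

/-- relative coboundaries on `S` -/
def Cob (S : ∀ i, Set (F i)) (i : ℕ) (z : F (i + 1) → R) : Prop :=
  ∃ y ∈ 𝓕.mem i, (∀ e ∉ S i, y e = 0) ∧ ∀ e ∈ S (i + 1), z e = cb bd i y e

/-- the cohomology in the degree `i + 1` vanishes -/
def Van (S : ∀ i, Set (F i)) (i : ℕ) : Prop := ∀ z, 𝓕.Coc S i z → 𝓕.Cob S i z

/-- the cohomology in the degree `i + 1` is infinite cyclic -/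
def HZ (S : ∀ i, Set (F i)) (i : ℕ) : Prop :=
  ∃ z₀, 𝓕.Coc S i z₀ ∧ ∀ z, 𝓕.Coc S i z → ∃! n : ℤ, 𝓕.Cob S i (z - n • z₀)

variable {𝓕} {S Z : ∀ i, Set (F i)} {i : ℕ}

theorem Coc.add {z z' : F (i + 1) → R} (h : 𝓕.Coc S i z) (h' : 𝓕.Coc S i z') :
    𝓕.Coc S i (z + z') :=
  ⟨add_mem h.mem h'.mem, fun e he => by rw [Pi.add_apply, h.supp e he, h'.supp e he, add_zero],
    fun e he => by rw [cb_add, Pi.add_apply, h.closed e he, h'.closed e he, add_zero]⟩

theorem Coc.zsmul {z : F (i + 1) → R} (h : 𝓕.Coc S i z) (n : ℤ) : 𝓕.Coc S i (n • z) :=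
  ⟨zsmul_mem h.mem n, fun e he => by rw [Pi.smul_apply, h.supp e he, smul_zero],
    fun e he => by rw [cb_zsmul, Pi.smul_apply, h.closed e he, smul_zero]⟩

theorem Coc.sub {z z' : F (i + 1) → R} (h : 𝓕.Coc S i z) (h' : 𝓕.Coc S i z') :
    𝓕.Coc S i (z - z') :=
  ⟨sub_mem h.mem h'.mem, fun e he => by rw [Pi.sub_apply, h.supp e he, h'.supp e he, sub_zero],
    fun e he => by rw [cb_sub, Pi.sub_apply, h.closed e he, h'.closed e he, sub_zero]⟩

theorem Cob.add {z z' : F (i + 1) → R} (h : 𝓕.Cob S i z) (h' : 𝓕.Cob S i z') :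
    𝓕.Cob S i (z + z') := by
  obtain ⟨y, h1, h2, h3⟩ := h
  obtain ⟨y', h1', h2', h3'⟩ := h'
  exact ⟨y + y', add_mem h1 h1', fun e he => by rw [Pi.add_apply, h2 e he, h2' e he, add_zero],
    fun e he => by rw [cb_add, Pi.add_apply, Pi.add_apply, h3 e he, h3' e he]⟩

theorem Cob.zsmul {z : F (i + 1) → R} (h : 𝓕.Cob S i z) (n : ℤ) : 𝓕.Cob S i (n • z) := by
  obtain ⟨y, h1, h2, h3⟩ := h
  exact ⟨n • y, zsmul_mem h1 n, fun e he => by rw [Pi.smul_apply, h2 e he, smul_zero],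
    fun e he => by rw [cb_zsmul, Pi.smul_apply, Pi.smul_apply, h3 e he]⟩

theorem Cob.neg {z : F (i + 1) → R} (h : 𝓕.Cob S i z) : 𝓕.Cob S i (-z) := by
  have := h.zsmul (-1)
  rwa [neg_one_zsmul] at this

theorem Cob.sub {z z' : F (i + 1) → R} (h : 𝓕.Cob S i z) (h' : 𝓕.Cob S i z') :
    𝓕.Cob S i (z - z') := by
  rw [sub_eq_add_neg]
  exact h.add h'.neg

theorem Cob.zero : 𝓕.Cob S i 0 :=
  ⟨0, zero_mem _, fun _ _ => rfl, fun e _ => by rw [cb_zero]⟩

theorem Cob.congr {z z' : F (i + 1) → R} (h : 𝓕.Cob S i z) (hz : ∀ e ∈ S (i + 1), z' e = z e) :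
    𝓕.Cob S i z' := by
  obtain ⟨y, h1, h2, h3⟩ := h
  exact ⟨y, h1, h2, fun e he => by rw [hz e he, h3 e he]⟩

/-- `S` is convex -/
def Cv (bd : ∀ i, F (i + 1) → (F i →₀ ℤ)) (S : ∀ i, Set (F i)) : Prop :=
  ∀ i, ∀ e ∈ S (i + 2), ∀ f, bd (i + 1) e f ≠ 0 → ∀ g ∈ S i, bd i f g ≠ 0 → f ∈ S (i + 1)

/-- `Z` is closed in `S` -/
structure Cl (bd : ∀ i, F (i + 1) → (F i →₀ ℤ)) (S Z : ∀ i, Set (F i)) : Prop where
  le : ∀ i, Z i ⊆ S i
  face : ∀ i, ∀ e ∈ Z (i + 1), ∀ f ∈ S i, bd i e f ≠ 0 → f ∈ Z i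

/-- `cob` of the restriction of `cob` -/
theorem cb_ind_cb (hdd : DD bd) (hS : Cv bd S) {c : F i → R} (hc : ∀ e ∉ S i, c e = 0)
    (e : F (i + 2)) (he : e ∈ S (i + 2)) :
    cb bd (i + 1) ((S (i + 1)).indicator (cb bd i c)) e = 0 := by
  have h1 : cb bd (i + 1) ((S (i + 1)).indicator (cb bd i c)) e =
      cb bd (i + 1) (cb bd i c) e := by
    refine cb_congr _ _ _ e fun f hf => ?_
    by_cases h : f ∈ S (i + 1)
    · rw [Set.indicator_of_mem h]
    · rw [Set.indicator_of_notMem h]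
      refine (cb_eq_zero i c f fun g hg => ?_).symm
      by_contra h2
      have h3 : g ∈ S i := by
        by_contra h4
        exact h2 (hc g h4)
      exact h (hS i e he f hf g h3 hg)
  rw [h1, cb_cb hdd]
  rfl

/-- for `Z`-cells only the faces in `Z` count -/
theorem cb_Z (hZ : Cl bd S Z) {c : F i → R} (hc : ∀ e ∉ S i, c e = 0) (e : F (i + 1))
    (he : e ∈ Z (i + 1)) : cb bd i ((Z i).indicator c) e = cb bd i c e := by
  refine cb_congr _ _ _ e fun f hf => ?_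
  by_cases h : f ∈ Z i
  · rw [Set.indicator_of_mem h]
  · rw [Set.indicator_of_notMem h]
    by_contra h1
    have h2 : f ∈ S i := by
      by_contra h3
      exact h1 (hc f h3).symm
    exact h (hZ.face i e he f h2 hf)

theorem cb_Y (hZ : Cl bd S Z) {c : F i → R} (hc : ∀ e ∉ S i \ Z i, c e = 0) (e : F (i + 1))
    (he : e ∈ Z (i + 1)) : cb bd i c e = 0 := by
  refine cb_eq_zero i c e fun f hf => ?_
  by_contra h1
  have h2 : f ∈ S i \ Z i := by
    by_contra h3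
    exact h1 (hc f h3)
  exact h2.2 (hZ.face i e he f h2.1 hf)

/-- the connecting map -/
noncomputable def dl (S : ∀ i, Set (F i)) (i : ℕ) (z : F (i + 1) → R) : F (i + 2) → R :=
  (S (i + 2)).indicator (cb bd (i + 1) z)

theorem dl_sub (S : ∀ i, Set (F i)) (z z' : F (i + 1) → R) :
    dl (bd := bd) S i (z - z') = dl (bd := bd) S i z - dl (bd := bd) S i z' := by
  unfold dl
  rw [cb_sub, Set.indicator_sub']

theorem dl_zsmul (S : ∀ i, Set (F i)) (n : ℤ) (z : F (i + 1) → R) :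
    dl (bd := bd) S i (n • z) = n • dl (bd := bd) S i z := by
  classical
  unfold dl
  rw [cb_zsmul]
  funext e
  rw [Pi.smul_apply, Set.indicator_apply, Set.indicator_apply]
  split_ifs
  · rfl
  · rw [smul_zero]

theorem dl_coc (hdd : DD bd) (hS : Cv bd S) (hZ : Cl bd S Z) {z : F (i + 1) → R}
    (hz : 𝓕.Coc Z i z) : 𝓕.Coc (fun i => S i \ Z i) (i + 1) (dl (bd := bd) S i z) where
  mem := 𝓕.ind (𝓕.cob _ _ hz.mem) _
  supp e he := by
    by_cases h : e ∈ S (i + 2)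
    · unfold dl
      rw [Set.indicator_of_mem h]
      refine hz.closed e ?_
      by_contra h1
      exact he ⟨h, h1⟩
    · exact Set.indicator_of_notMem h _
  closed e he := cb_ind_cb hdd hS (fun e he => hz.supp e fun h => he (hZ.le _ h)) e he.1

theorem dl_inj (hZ : Cl bd S Z) (h : 𝓕.Van S i) {z : F (i + 1) → R}
    (hz : 𝓕.Coc Z i z) (hd : 𝓕.Cob (fun i => S i \ Z i) (i + 1) (dl (bd := bd) S i z)) :
    𝓕.Cob Z i z := by
  obtain ⟨w, hw, hw0, hw1⟩ := hd
  have h1 : 𝓕.Coc S i (z - w) := by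
    refine ⟨sub_mem hz.mem hw, fun e he => ?_, fun e he => ?_⟩
    · rw [Pi.sub_apply, hz.supp e (fun h => he (hZ.le _ h)), hw0 e (fun h => he h.1), sub_zero]
    · rw [cb_sub, Pi.sub_apply]
      by_cases heZ : e ∈ Z (i + 2)
      · rw [hz.closed e heZ, cb_Y hZ hw0 e heZ, sub_zero]
      · have h2 := hw1 e ⟨he, heZ⟩
        unfold dl at h2
        rw [Set.indicator_of_mem he] at h2
        rw [h2, sub_self]
  obtain ⟨x, hx, hx0, hx1⟩ := h _ h1
  refine ⟨(Z i).indicator x, 𝓕.ind hx _, fun e he => Set.indicator_of_notMem he _,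
    fun e he => ?_⟩
  rw [cb_Z hZ hx0 e he, ← hx1 e (hZ.le _ he), Pi.sub_apply, hw0 e (fun h => h.2 he), sub_zero]

theorem dl_surj (hZ : Cl bd S Z) (h : 𝓕.Van S (i + 1)) {y : F (i + 2) → R}
    (hy : 𝓕.Coc (fun i => S i \ Z i) (i + 1) y) :
    ∃ z, 𝓕.Coc Z i z ∧ 𝓕.Cob (fun i => S i \ Z i) (i + 1) (dl (bd := bd) S i z - y) := by
  have h1 : 𝓕.Coc S (i + 1) y := by
    refine ⟨hy.mem, fun e he => hy.supp e (fun h => he h.1), fun e he => ?_⟩
    by_cases heZ : e ∈ Z (i + 3)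
    · exact cb_Y hZ hy.supp e heZ
    · exact hy.closed e ⟨he, heZ⟩
  obtain ⟨x, hx, hx0, hx1⟩ := h _ h1
  refine ⟨(Z (i + 1)).indicator x, ⟨𝓕.ind hx _, fun e he => Set.indicator_of_notMem he _,
    fun e he => ?_⟩, ?_⟩
  · rw [cb_Z hZ hx0 e he, ← hx1 e (hZ.le _ he)]
    exact hy.supp e (fun h => h.2 he)
  · refine ⟨(Z (i + 1)).indicator x - x, sub_mem (𝓕.ind hx _) hx, fun e he => ?_, fun e he => ?_⟩
    · rw [Pi.sub_apply]
      by_cases heZ : e ∈ Z (i + 1)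
      · rw [Set.indicator_of_mem heZ, sub_self]
      · rw [Set.indicator_of_notMem heZ, hx0 e (fun h => he ⟨h, heZ⟩), sub_zero]
    · rw [Pi.sub_apply, cb_sub, Pi.sub_apply, ← hx1 e he.1]
      unfold dl
      rw [Set.indicator_of_mem he.1]

theorem dl_cob (hdd : DD bd) (hS : Cv bd S) (hZ : Cl bd S Z) {z : F (i + 1) → R}
    (hz0 : ∀ e ∉ Z (i + 1), z e = 0) (hzm : z ∈ 𝓕.mem (i + 1))
    (hz : 𝓕.Cob Z i z) : 𝓕.Cob (fun i => S i \ Z i) (i + 1) (dl (bd := bd) S i z) := by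
  obtain ⟨y, hy, hy0, hy1⟩ := hz
  refine ⟨z - (S (i + 1)).indicator (cb bd i y), sub_mem hzm (𝓕.ind (𝓕.cob _ _ hy) _),
    fun e he => ?_, fun e he => ?_⟩
  · rw [Pi.sub_apply]
    by_cases h : e ∈ S (i + 1)
    · have h1 : e ∈ Z (i + 1) := by
        by_contra h1
        exact he ⟨h, h1⟩
      rw [Set.indicator_of_mem h, hy1 e h1, sub_self]
    · rw [Set.indicator_of_notMem h, hz0 e (fun h1 => h (hZ.le _ h1)), sub_zero]
  · rw [cb_sub, Pi.sub_apply,
      cb_ind_cb hdd hS (fun e he => hy0 e fun h => he (hZ.le _ h)) e he.1, sub_zero]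
    unfold dl
    rw [Set.indicator_of_mem he.1]

/-- vanishing for `Z` -/
theorem van_Z (hdd : DD bd) (hS : Cv bd S) (hZ : Cl bd S Z) (h : 𝓕.Van S i)
    (h' : 𝓕.Van (fun i => S i \ Z i) (i + 1)) : 𝓕.Van Z i :=
  fun _ hz => dl_inj hZ h hz (h' _ (dl_coc hdd hS hZ hz))

/-- the connecting isomorphism -/
theorem hz_Z (hdd : DD bd) (hS : Cv bd S) (hZ : Cl bd S Z) (h : 𝓕.Van S i)
    (h1 : 𝓕.Van S (i + 1)) (h' : 𝓕.HZ (fun i => S i \ Z i) (i + 1)) : 𝓕.HZ Z i := by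
  obtain ⟨y₀, hy₀, hu⟩ := h'
  obtain ⟨z₀, hz₀, hzy⟩ := dl_surj hZ h1 hy₀
  refine ⟨z₀, hz₀, fun z hz => ?_⟩
  have key : ∀ n : ℤ, 𝓕.Cob Z i (z - n • z₀) ↔
      𝓕.Cob (fun i => S i \ Z i) (i + 1) (dl (bd := bd) S i z - n • y₀) := by
    intro n
    have hc : 𝓕.Coc Z i (z - n • z₀) := hz.sub (hz₀.zsmul n)
    have e1 : dl (bd := bd) S i z - n • y₀ =
        dl (bd := bd) S i (z - n • z₀) + n • (dl (bd := bd) S i z₀ - y₀) := by
      rw [dl_sub, dl_zsmul, smul_sub]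
      abel
    constructor
    · intro h2
      rw [e1]
      exact (dl_cob hdd hS hZ hc.supp hc.mem h2).add (hzy.zsmul n)
    · intro h2
      refine dl_inj hZ h hc ?_
      have e2 : dl (bd := bd) S i (z - n • z₀) = (dl (bd := bd) S i z - n • y₀) -
          n • (dl (bd := bd) S i z₀ - y₀) := by
        rw [e1, add_sub_cancel_right]
      rw [e2]
      exact h2.sub (hzy.zsmul n)
  obtain ⟨n, hn, hn'⟩ := hu _ (dl_coc hdd hS hZ hz)
  exact ⟨n, (key n).2 hn, fun m hm => hn' m ((key m).1 hm)⟩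

end Sp

end Pool.Agent.U838.RT
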