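import Pool.Agent.U838.RT.Chain
import Pool.Agent.Q111.FT.Good

/-!
# The fixed set of a finite reflection group as a complex
-/

set_option autoImplicit false

namespace Pool.Agent.U838.RT

open Pool.Agent.Q169.FT (Refl IsSub IsCo IsCb HcZ)
open Pool.Agent.Q169.ZD (par)
open Pool.Agent.TH38.CX (AcyclicGComplex)
open Pool.Agent.Q111.FT (bd_single_sum)

noncomputable section

section complex

variable {N : Type} [Group N] (U : AcyclicGComplex N)

/-- the boundary of the cells -/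
abbrev bdU : ∀ i, U.E (i + 1) → (U.E i →₀ ℤ) := fun i e => U.bd i (Finsupp.single e 1)

theorem bH_U (i : ℕ) (x : U.E (i + 1) →₀ ℤ) : bH (bdU U) i x = U.bd i x :=
  (bd_single_sum U i x).symm

theorem dd_U : DD (bdU U) := by
  intro i e
  change bH (bdU U) i (U.bd (i + 1) (Finsupp.single e 1)) = 0
  rw [bH_U]
  exact (U.exact_succ i _).2 ⟨_, rfl⟩

theorem aug_U (e : U.E 1) : ((bdU U 0 e).sum fun _ n => n) = 0 := (U.exact_zero _).2 ⟨_, rfl⟩

theorem dd_U' : DD (bdS Unit (bdU U)) := dd_shift_unit (dd_U U) (aug_U U)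

theorem dd_U'' : DD (bdS Empty (bdS Unit (bdU U))) := dd_shift_empty (dd_U' U)

theorem bH_aug (x : U.E 0 →₀ ℤ) :
    bH (bdS Unit (bdU U)) 0 x = (x.sum fun _ n => n) • oneP Unit := by
  change (x.sum fun e n => n • oneP Unit) = _
  unfold Finsupp.sum
  rw [Finset.sum_smul]

theorem oneP_apply : oneP Unit () = 1 := rfl

theorem ce_U : CE (bdS Empty (bdS Unit (bdU U))) := by
  intro i x hx
  match i, x, hx with
  | 0, x, _ => exact ⟨0, Finsupp.ext fun f => (f : Empty).elim⟩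
  | 1, x, _ =>
    obtain ⟨v⟩ := U.nonempty
    refine ⟨(Finsupp.single v ((x : Unit →₀ ℤ) ()) : U.E 0 →₀ ℤ), ?_⟩
    refine (bH_aug U _).trans ?_
    refine Finsupp.ext fun u => ?_
    have h1 : ((Finsupp.single v ((x : Unit →₀ ℤ) ()) : U.E 0 →₀ ℤ).sum fun _ n => n) =
        (x : Unit →₀ ℤ) () := Finsupp.sum_single_index rfl
    rw [h1]
    change (x : Unit →₀ ℤ) () • (oneP Unit) () = _
    rw [oneP_apply, smul_eq_mul, mul_one]
    rfl
  | 2, x, hx =>
    have h1 : ((x : U.E 0 →₀ ℤ).sum fun _ n => n) • oneP Unit = 0 :=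
      (bH_aug U (x : U.E 0 →₀ ℤ)).symm.trans hx
    have h2 := DFunLike.congr_fun h1 ()
    change ((x : U.E 0 →₀ ℤ).sum fun _ n => n) • (oneP Unit) () = 0 at h2
    rw [oneP_apply, smul_eq_mul, mul_one] at h2
    obtain ⟨y, hy⟩ := (U.exact_zero x).1 h2
    exact ⟨y, (bH_U U 0 y).trans hy⟩
  | i + 3, x, hx =>
    have h1 : U.bd i (x : U.E (i + 1) →₀ ℤ) = 0 := (bH_U U i x).symm.trans hx
    obtain ⟨y, hy⟩ := (U.exact_succ i x).1 h1
    exact ⟨y, (bH_U U (i + 1) y).trans hy⟩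

variable {U}

theorem isSub_shift {P : Type} [Finite P] {E : ℕ → Type} {bd : ∀ i, E (i + 1) → (E i →₀ ℤ)}
    {A : ∀ i, Set (E i)} (hA : IsSub bd A) : IsSub (bdS P bd) (setS P A) := by
  intro i
  cases i with
  | zero => exact fun _ _ _ _ => trivial
  | succ i => exact hA i

/-- the three properties of an acyclic subcomplex -/
structure AcSub (U : AcyclicGComplex N) (A : ∀ i, Set (U.E i)) : Prop where
  sub : IsSub (bdU U) A
  nonempty : (A 0).Nonempty
  exact_zero : ∀ x ∈ chA A 0, (x.sum fun _ n => n) = 0 → ∃ y ∈ chA A 1, U.bd 0 y = x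
  exact_succ : ∀ i, ∀ x ∈ chA A (i + 1), U.bd i x = 0 → ∃ y ∈ chA A (i + 2), U.bd (i + 1) y = x

theorem acSub_of_van {A : ∀ i, Set (U.E i)} (hA : IsSub (bdU U) A)
    (h : ∀ (R : Type) [AddCommGroup R] (i : ℕ),
      (top (bdS Empty (bdS Unit (bdU U))) R).Van (setS Empty (setS Unit A)) i) : AcSub U A := by
  have hA' : IsSub (bdS Empty (bdS Unit (bdU U))) (setS Empty (setS Unit A)) :=
    isSub_shift (isSub_shift hA)
  refine ⟨hA, ?_, fun x hx h0 => ?_, fun i x hx h0 => ?_⟩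
  · obtain ⟨y, hy, hyx⟩ := ce_of_van _ hA' 0 (fun R _ => h R 0)
      ((Finsupp.single () 1 : Unit →₀ ℤ) : Sh Empty (Sh Unit U.E) 1 →₀ ℤ) (fun _ _ => trivial)
      (Finsupp.ext fun f => (f : Empty).elim)
    by_contra hne
    rw [Set.not_nonempty_iff_eq_empty] at hne
    have h1 : (y : U.E 0 →₀ ℤ) = 0 := by
      refine Finsupp.ext fun e => ?_
      by_contra h2
      have h3 : e ∈ A 0 := hy e h2
      rw [hne] at h3
      exact h3
    have h2 := (bH_aug U (y : U.E 0 →₀ ℤ)).symm.trans hyx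
    rw [h1] at h2
    have h4 : ((0 : U.E 0 →₀ ℤ).sum fun _ n => n) • oneP Unit = 0 := by
      rw [Finsupp.sum_zero_index, zero_smul]
    have h5 : (0 : Unit →₀ ℤ) = Finsupp.single () 1 := h4.symm.trans h2
    have h3 := DFunLike.congr_fun h5 ()
    rw [Finsupp.single_eq_same] at h3
    exact zero_ne_one h3
  · have h1 : bH (bdS Unit (bdU U)) 0 x = 0 := (bH_aug U x).trans (by rw [h0, zero_smul]; rfl)
    obtain ⟨y, hy, hyx⟩ := ce_of_van _ hA' 1 (fun R _ => h R 1) x hx h1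
    exact ⟨y, hy, (bH_U U 0 y).symm.trans hyx⟩
  · have h1 : bH (bdU U) i x = 0 := by rw [bH_U, h0]
    obtain ⟨y, hy, hyx⟩ := ce_of_van _ hA' (i + 2) (fun R _ => h R (i + 2)) x hx h1
    exact ⟨y, hy, (bH_U U (i + 1) y).symm.trans hyx⟩

/-- the action of a subgroup on an invariant set of cells -/
@[instance_reducible]
def actA (A : ∀ i, Set (U.E i)) (L : Subgroup N)
    (hL : ∀ l ∈ L, ∀ i, ∀ e ∈ A i, l • e ∈ A i) (i : ℕ) : MulAction L {e : U.E i // e ∈ A i} where
  smul l e := ⟨(l : N) • e.1, hL l l.2 i e.1 e.2⟩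
  one_smul e := Subtype.ext (one_smul N e.1)
  mul_smul l l' e := Subtype.ext (mul_smul (l : N) (l' : N) e.1)

theorem chA_bd {A : ∀ i, Set (U.E i)} (hA : IsSub (bdU U) A) (i : ℕ) {x : U.E (i + 1) →₀ ℤ}
    (hx : x ∈ chA A (i + 1)) : U.bd i x ∈ chA A i := by
  rw [bd_single_sum]
  refine AddSubgroup.sum_mem _ fun e he => AddSubgroup.zsmul_mem _ ?_ _
  exact fun f hf => hA i e f (hx e (Finsupp.mem_support_iff.1 he)) hf

theorem chA_map {A : ∀ i, Set (U.E i)} (i : ℕ) (x : {e : U.E i // e ∈ A i} →₀ ℤ) :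
    x.mapDomain Subtype.val ∈ chA A i := by
  intro e he
  by_contra h
  apply he
  refine Finsupp.mapDomain_of_notMem_range _ _ ?_
  rintro ⟨e', rfl⟩
  exact h e'.2

theorem map_sub {A : ∀ i, Set (U.E i)} (i : ℕ) {x : U.E i →₀ ℤ} (hx : x ∈ chA A i) :
    (x.subtypeDomain (fun e => e ∈ A i)).mapDomain Subtype.val = x := by
  refine Finsupp.ext fun e => ?_
  by_cases he : e ∈ A i
  · have := Finsupp.mapDomain_apply Subtype.val_injective
      (x.subtypeDomain (fun e => e ∈ A i)) ⟨e, he⟩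
    rw [this, Finsupp.subtypeDomain_apply]
  · rw [Finsupp.mapDomain_of_notMem_range]
    · by_contra h
      exact he (hx e (Ne.symm h))
    · rintro ⟨e', rfl⟩
      exact he e'.2

theorem sub_map {A : ∀ i, Set (U.E i)} (i : ℕ) (x : {e : U.E i // e ∈ A i} →₀ ℤ) :
    (x.mapDomain Subtype.val).subtypeDomain (fun e => e ∈ A i) = x := by
  refine Finsupp.ext fun e => ?_
  rw [Finsupp.subtypeDomain_apply, Finsupp.mapDomain_apply Subtype.val_injective]

theorem val_inj {A : ∀ i, Set (U.E i)} (i : ℕ) :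
    Function.Injective (Finsupp.mapDomain (M := ℤ) (Subtype.val : {e : U.E i // e ∈ A i} → U.E i)) :=
  Finsupp.mapDomain_injective Subtype.val_injective

/-- the boundary map of a subcomplex -/
def vb (A : ∀ i, Set (U.E i)) (i : ℕ) :
    ({e : U.E (i + 1) // e ∈ A (i + 1)} →₀ ℤ) →+ ({e : U.E i // e ∈ A i} →₀ ℤ) :=
  (Finsupp.subtypeDomainAddMonoidHom (p := fun e => e ∈ A i)).comp
    ((U.bd i).comp (Finsupp.mapDomain.addMonoidHom Subtype.val))

theorem vb_map {A : ∀ i, Set (U.E i)} (hA : IsSub (bdU U) A) (i : ℕ)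
    (x : {e : U.E (i + 1) // e ∈ A (i + 1)} →₀ ℤ) :
    (vb A i x).mapDomain Subtype.val = U.bd i (x.mapDomain Subtype.val) :=
  map_sub i (chA_bd hA i (chA_map (i + 1) x))

/-- an acyclic subcomplex as a complex -/
def VV (A : ∀ i, Set (U.E i)) (hA : AcSub U A) (L : Subgroup N)
    (hL : ∀ l ∈ L, ∀ i, ∀ e ∈ A i, l • e ∈ A i) : AcyclicGComplex L where
  E i := {e : U.E i // e ∈ A i}
  act i := actA A L hL i
  bd i := vb A i
  bd_smul i g x := by
    let _ := actA A L hL i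
    let _ := actA A L hL (i + 1)
    apply val_inj i
    rw [vb_map hA.sub]
    have h1 : ∀ (j : ℕ) (y : {e : U.E j // e ∈ A j} →₀ ℤ), Finsupp.mapDomain Subtype.val
        (Finsupp.mapDomain (fun e : {e : U.E j // e ∈ A j} =>
          (⟨(g : N) • e.1, hL g g.2 j e.1 e.2⟩ : {e : U.E j // e ∈ A j})) y) =
        Finsupp.mapDomain (fun e => (g : N) • e) (Finsupp.mapDomain Subtype.val y) := by
      intro j y
      rw [← Finsupp.mapDomain_comp, ← Finsupp.mapDomain_comp]
      rfl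
    have h2 := h1 (i + 1) x
    have h3 := h1 i (vb A i x)
    refine (congrArg (U.bd i) h2).trans ?_
    rw [U.bd_smul, ← vb_map hA.sub]
    exact h3.symm
  len := U.len
  isEmpty i hi := ⟨fun e => (U.isEmpty i hi).false e.1⟩
  nonempty := ⟨⟨_, hA.nonempty.choose_spec⟩⟩
  exact_zero x := by
    have h1 : (x.mapDomain Subtype.val).sum (fun _ r => r) = x.sum fun _ r => r :=
      Finsupp.sum_mapDomain_index (fun _ => rfl) (fun _ _ _ => rfl)
    constructor
    · intro h
      obtain ⟨y, hy, hyx⟩ := hA.exact_zero _ (chA_map 0 x) (h1.trans h)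
      refine ⟨y.subtypeDomain _, val_inj 0 ?_⟩
      rw [vb_map hA.sub, map_sub 1 hy, hyx]
    · rintro ⟨y, rfl⟩
      rw [← h1, vb_map hA.sub]
      exact (U.exact_zero _).2 ⟨_, rfl⟩
  exact_succ i x := by
    constructor
    · intro h
      have h2 : U.bd i (x.mapDomain Subtype.val) = 0 := by
        rw [← vb_map hA.sub, h, Finsupp.mapDomain_zero]
      obtain ⟨y, hy, hyx⟩ := hA.exact_succ i _ (chA_map (i + 1) x) h2
      refine ⟨y.subtypeDomain _, val_inj (i + 1) ?_⟩
      rw [vb_map hA.sub, map_sub (i + 2) hy, hyx]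
    · rintro ⟨y, rfl⟩
      apply val_inj i
      rw [vb_map hA.sub, vb_map hA.sub, Finsupp.mapDomain_zero]
      exact (U.exact_succ i _).2 ⟨_, rfl⟩

end complex

/-! ### Finite supports -/

section finsupp

/-- cochains with finite support -/
def fs {F : ℕ → Type} (bd : ∀ i, F (i + 1) → (F i →₀ ℤ))
    (hloc : ∀ i f, {e | bd i e f ≠ 0}.Finite) : Sp ℤ bd where
  mem i :=
    { carrier := {c | (Function.support c).Finite}
      zero_mem' := by
        change (Function.support (0 : F i → ℤ)).Finite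
        rw [Function.support_zero]
        exact Set.finite_empty
      add_mem' := fun {a b} ha hb => (ha.union hb).subset (Function.support_add a b)
      neg_mem' := fun {a} ha => by
        change (Function.support (-a)).Finite
        rw [Function.support_neg]
        exact ha }
  cob i c hc := by
    refine ((Set.Finite.biUnion hc fun f _ => hloc i f)).subset fun e he => ?_
    by_contra h
    refine he (cb_eq_zero i c e fun f hf => ?_)
    by_contra h1
    exact h (Set.mem_biUnion (s := Function.support c) h1 hf)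
  pull i c g σ m hc h1 h2 := by
    refine (Set.Finite.biUnion hc fun e _ =>
      Set.finite_of_encard_le_coe (h2 e)).subset fun x hx => ?_
    refine Set.mem_biUnion (s := Function.support c) (x := σ x) ?_ ⟨hx, rfl⟩
    change c (σ x) ≠ 0
    rw [← h1 x hx]
    exact hx

theorem mem_fs {F : ℕ → Type} {bd : ∀ i, F (i + 1) → (F i →₀ ℤ)}
    {hloc : ∀ i f, {e | bd i e f ≠ 0}.Finite} {i : ℕ} {c : F i → ℤ} :
    c ∈ (fs bd hloc).mem i ↔ (Function.support c).Finite := Iff.rfl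

variable {N : Type} [Group N] {U : AcyclicGComplex N}

theorem loc_shift {E : ℕ → Type} {bd : ∀ i, E (i + 1) → (E i →₀ ℤ)}
    (hloc : ∀ i f, {e | bd i e f ≠ 0}.Finite) :
    ∀ i f, {e | bdS Empty bd i e f ≠ 0}.Finite := by
  intro i
  cases i with
  | zero => exact fun f => (f : Empty).elim
  | succ i => exact hloc i

variable {L : Type} [Group L] {V : AcyclicGComplex L} {ι : ∀ i, V.E i → U.E i}
  (hι : ∀ i, Function.Injective (ι i))
  (hbd : ∀ i (e : V.E (i + 1)), U.bd i (Finsupp.single (ι (i + 1) e) 1) =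
    (V.bd i (Finsupp.single e 1)).mapDomain (ι i))

/-- extension by zero -/
def hat (ι : ∀ i, V.E i → U.E i) (d : ℕ) (z : V.E d →₀ ℤ) : U.E d → ℤ := ⇑(z.mapDomain (ι d))

include hι in
theorem hat_apply (d : ℕ) (z : V.E d →₀ ℤ) (e : V.E d) : hat ι d z (ι d e) = z e :=
  Finsupp.mapDomain_apply (hι d) z e

theorem hat_off (d : ℕ) (z : V.E d →₀ ℤ) (e : U.E d) (he : e ∉ Set.range (ι d)) :
    hat ι d z e = 0 := Finsupp.mapDomain_of_notMem_range _ _ he

theorem hat_sub (d : ℕ) (z z' : V.E d →₀ ℤ) : hat ι d (z - z') = hat ι d z - hat ι d z' := by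
  unfold hat
  have := _root_.map_sub (Finsupp.mapDomain.addMonoidHom (M := ℤ) (ι d)) z z'
  change Finsupp.mapDomain _ _ = Finsupp.mapDomain _ _ - Finsupp.mapDomain _ _ at this
  rw [this]
  rfl

theorem hat_zsmul (d : ℕ) (n : ℤ) (z : V.E d →₀ ℤ) : hat ι d (n • z) = n • hat ι d z := by
  unfold hat
  have := _root_.map_zsmul (Finsupp.mapDomain.addMonoidHom (M := ℤ) (ι d)) n z
  change Finsupp.mapDomain _ _ = n • Finsupp.mapDomain _ _ at this
  rw [this]
  rfl

theorem hat_fin (d : ℕ) (z : V.E d →₀ ℤ) : (Function.support (hat ι d z)).Finite :=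
  Finsupp.hasFiniteSupport _

include hι in
theorem hat_surj (d : ℕ) (y : U.E d → ℤ) (hy : (Function.support y).Finite)
    (h0 : ∀ e ∉ Set.range (ι d), y e = 0) : ∃ z : V.E d →₀ ℤ, hat ι d z = y := by
  refine ⟨(Finsupp.ofSupportFinite y hy).comapDomain (ι d) (hι d).injOn, ?_⟩
  funext e
  by_cases he : e ∈ Set.range (ι d)
  · obtain ⟨e, rfl⟩ := he
    rw [hat_apply hι]
    rfl
  · rw [hat_off _ _ _ he, h0 e he]

include hι hbd in
theorem cb_hat (d : ℕ) (z : V.E d →₀ ℤ) (e : V.E (d + 1)) :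
    cb (bdU U) d (hat ι d z) (ι (d + 1) e) =
      (V.bd d (Finsupp.single e 1)).sum fun f n => n * z f := by
  unfold cb
  change ((U.bd d (Finsupp.single (ι (d + 1) e) 1)).sum fun f n => n • hat ι d z f) = _
  rw [hbd, Finsupp.sum_mapDomain_index (fun f => zero_smul ℤ (hat ι d z f))
    (fun f m n => add_smul m n (hat ι d z f))]
  refine Finsupp.sum_congr fun f _ => ?_
  rw [hat_apply hι, smul_eq_mul]

/-- the image -/
abbrev rg (ι : ∀ i, V.E i → U.E i) : ∀ i, Set (Sh Empty U.E i) :=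
  setS Empty (fun i => Set.range (ι i))

include hι hbd in
theorem coc_hat (hloc : ∀ i f, {e | bdU U i e f ≠ 0}.Finite) (d : ℕ) (z : V.E d →₀ ℤ) :
    (fs (bdS Empty (bdU U)) (loc_shift hloc)).Coc (rg ι) d (hat ι d z) ↔ IsCo V d z := by
  constructor
  · intro h e
    rw [← cb_hat hι hbd]
    exact h.closed (ι (d + 1) e) ⟨e, rfl⟩
  · intro h
    refine ⟨hat_fin d z, fun e he => hat_off d z e he, fun e he => ?_⟩
    obtain ⟨e, rfl⟩ := (he : (e : U.E (d + 1)) ∈ Set.range (ι (d + 1)))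
    exact (cb_hat hι hbd d z e).trans (h e)

include hι hbd in
theorem cob_hat (hloc : ∀ i f, {e | bdU U i e f ≠ 0}.Finite) (d : ℕ) (z : V.E d →₀ ℤ) :
    (fs (bdS Empty (bdU U)) (loc_shift hloc)).Cob (rg ι) d (hat ι d z) ↔ IsCb V d z := by
  cases d with
  | zero =>
    constructor
    · rintro ⟨y, -, -, hy⟩
      change z = 0
      refine Finsupp.ext fun e => ?_
      have h1 := hy (ι 0 e) ⟨e, rfl⟩
      have h2 : cb (bdS Empty (bdU U)) 0 y (ι 0 e) = 0 :=
        cb_eq_zero _ _ _ fun f => (f : Empty).elim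
      rw [h2] at h1
      have h3 := hat_apply hι 0 z e
      rw [← h3]
      exact h1
    · intro h
      change z = 0 at h
      subst h
      have : hat ι 0 (0 : V.E 0 →₀ ℤ) = 0 := by
        unfold hat
        rw [Finsupp.mapDomain_zero]
        rfl
      rw [this]
      exact Sp.Cob.zero
  | succ d =>
    constructor
    · rintro ⟨y, hy0, hy1, hy⟩
      obtain ⟨w, hw⟩ := hat_surj hι d y hy0 hy1
      refine ⟨w, fun e => ?_⟩
      rw [← cb_hat hι hbd, hw, ← hat_apply hι]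
      exact hy _ ⟨e, rfl⟩
    · rintro ⟨y, hy⟩
      refine ⟨hat ι d y, hat_fin d y, fun e he => hat_off d y e he, fun e he => ?_⟩
      obtain ⟨e, rfl⟩ := (he : (e : U.E (d + 1)) ∈ Set.range (ι (d + 1)))
      refine (hat_apply hι (d + 1) z e).trans ((hy e).trans ?_)
      exact (cb_hat hι hbd d y e).symm

include hι hbd in
theorem hz_iff (hloc : ∀ i f, {e | bdU U i e f ≠ 0}.Finite) (d : ℕ) :
    (fs (bdS Empty (bdU U)) (loc_shift hloc)).HZ (rg ι) d ↔ HcZ V d := by
  constructor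
  · rintro ⟨z₀, hz₀, hu⟩
    obtain ⟨w₀, rfl⟩ := hat_surj hι d z₀ hz₀.mem hz₀.supp
    refine ⟨w₀, (coc_hat hι hbd hloc d w₀).1 hz₀, fun w hw => ?_⟩
    obtain ⟨n, hn, hn'⟩ := hu _ ((coc_hat hι hbd hloc d w).2 hw)
    refine ⟨n, ?_, fun m hm => hn' m ?_⟩
    · refine (cob_hat hι hbd hloc d _).1 ?_
      rw [hat_sub, hat_zsmul]
      exact hn
    · have := (cob_hat hι hbd hloc d _).2 hm
      rw [hat_sub, hat_zsmul] at this
      exact this
  · rintro ⟨w₀, hw₀, hu⟩
    refine ⟨hat ι d w₀, (coc_hat hι hbd hloc d w₀).2 hw₀, fun z hz => ?_⟩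
    obtain ⟨w, rfl⟩ := hat_surj hι d z hz.mem hz.supp
    obtain ⟨n, hn, hn'⟩ := hu _ ((coc_hat hι hbd hloc d w).1 hz)
    refine ⟨n, ?_, fun m hm => hn' m ?_⟩
    · have := (cob_hat hι hbd hloc d _).2 hn
      rw [hat_sub, hat_zsmul] at this
      exact this
    · refine (cob_hat hι hbd hloc d _).1 ?_
      rw [hat_sub, hat_zsmul]
      exact hm

include hι hbd in
theorem van_iff (hloc : ∀ i f, {e | bdU U i e f ≠ 0}.Finite) (d : ℕ) :
    (fs (bdS Empty (bdU U)) (loc_shift hloc)).Van (rg ι) d ↔ ∀ z, IsCo V d z → IsCb V d z := by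
  constructor
  · intro h w hw
    exact (cob_hat hι hbd hloc d _).1 (h _ ((coc_hat hι hbd hloc d w).2 hw))
  · intro h z hz
    obtain ⟨w, rfl⟩ := hat_surj hι d z hz.mem hz.supp
    exact (cob_hat hι hbd hloc d _).2 (h w ((coc_hat hι hbd hloc d w).1 hz))

end finsupp

end

end Pool.Agent.U838.RT
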