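import Pool.Agent.U838.RT.Ref

/-!
# The sign of a reflection

If there are no cells of dimension `> n` and no wall contains an `n`-cell, then the reflections
act by `-1` on the infinite cyclic top cohomology group.
-/

set_option autoImplicit false

namespace Pool.Agent.U838.RT

open Pool.Agent.Q169.FT (Refl IsSub)
open Pool.Agent.Q169.ZD (par)
open Pool.Agent.U838.FT (par_mono simple_mem_par)

noncomputable section

variable {R : Type} [AddCommGroup R] {F : ℕ → Type} {bd : ∀ i, F (i + 1) → (F i →₀ ℤ)}
  {T : Type} {M : CoxeterMatrix T} {K : Type} [Group K] {cs : CoxeterSystem M K}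
  [∀ i, MulAction K (F i)] {C : ∀ i, Set (F i)} {mir : ∀ i, F i → Set T}

theorem exch {v : K} {t s : T} (h1 : cs.length v < cs.length (cs.simple t * v))
    (h2 : cs.length (cs.simple t * (v * cs.simple s)) < cs.length (v * cs.simple s)) :
    cs.simple t * v = v * cs.simple s := by
  rcases Q27.Cox.exchange_mul cs h2 with ⟨x', hx', h3, -⟩ | ⟨y', hy', h3⟩
  · rw [← mul_assoc] at h3
    rw [mul_right_cancel h3] at h1
    omega
  · rw [cs.length_simple] at hy'
    have h4 : cs.length y' = 0 := by omega
    rw [cs.length_eq_zero_iff] at h4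
    rw [h4, mul_one, ← mul_assoc] at h3
    calc cs.simple t * v = cs.simple t * v * cs.simple s * cs.simple s := by
          rw [mul_assoc _ (cs.simple s), cs.simple_mul_simple_self, mul_one]
      _ = v * cs.simple s := by rw [h3]

theorem side_coset {w : K} {t : T} {J : Set T} (h1 : cs.length w < cs.length (cs.simple t * w))
    {p : K} (hp : p ∈ par cs J)
    (h2 : cs.length (cs.simple t * (w * p)) < cs.length (w * p)) :
    w⁻¹ * (cs.simple t * w) ∈ par cs J := by
  by_contra hn
  have key : cs.length (w * p) < cs.length (cs.simple t * (w * p)) := by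
    clear h2
    have hp' : p ∈ Subgroup.closure (cs.simple '' J) := hp
    induction hp' using Subgroup.closure_induction_right with
    | one => rwa [mul_one]
    | mul_right x hx y hy ih =>
      obtain ⟨s, hs, rfl⟩ := hy
      have h3 := ih hx
      by_contra h4
      have h5 : cs.length (cs.simple t * (w * (x * cs.simple s))) <
          cs.length (w * (x * cs.simple s)) := by
        rcases cs.length_simple_mul (w * (x * cs.simple s)) t with h | h
        · omega
        · omega
      rw [← mul_assoc w x] at h5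
      have h6 := exch h3 h5
      apply hn
      have h7 : w⁻¹ * (cs.simple t * w) = x * cs.simple s * x⁻¹ := by
        have h8 : cs.simple t = w * x * cs.simple s * (w * x)⁻¹ := by
          rw [← h6, mul_assoc, mul_inv_cancel, mul_one]
        rw [h8]
        group
      rw [h7]
      exact (par cs J).mul_mem ((par cs J).mul_mem hx (simple_mem_par cs hs))
        ((par cs J).inv_mem hx)
    | mul_inv_cancel x hx y hy ih =>
      obtain ⟨s, hs, rfl⟩ := hy
      rw [cs.inv_simple]
      have h3 := ih hx
      by_contra h4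
      have h5 : cs.length (cs.simple t * (w * (x * cs.simple s))) <
          cs.length (w * (x * cs.simple s)) := by
        rcases cs.length_simple_mul (w * (x * cs.simple s)) t with h | h
        · omega
        · omega
      rw [← mul_assoc w x] at h5
      have h6 := exch h3 h5
      apply hn
      have h7 : w⁻¹ * (cs.simple t * w) = x * cs.simple s * x⁻¹ := by
        have h8 : cs.simple t = w * x * cs.simple s * (w * x)⁻¹ := by
          rw [← h6, mul_assoc, mul_inv_cancel, mul_one]
        rw [h8]
        group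
      rw [h7]
      exact (par cs J).mul_mem ((par cs J).mul_mem hx (simple_mem_par cs hs))
        ((par cs J).inv_mem hx)
  omega

/-- the half space of the chamber -/
def Hf (cs : CoxeterSystem M K) (C : ∀ i, Set (F i)) (t : T) (i : ℕ) : Set (F i) :=
  {x | ∃ e ∈ C i, ∃ w : K, w • e = x ∧ cs.length w < cs.length (cs.simple t * w)}

theorem hf_or (h : RA bd cs C mir) (t : T) (i : ℕ) {x : F i} (hx : x ∉ Hf cs C t i) :
    cs.simple t • x ∈ Hf cs C t i := by
  obtain ⟨e, he, w, rfl⟩ := h.surj i x trivial
  refine ⟨e, he, cs.simple t * w, mul_smul _ _ _, ?_⟩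
  rw [← mul_assoc, cs.simple_mul_simple_self, one_mul]
  rcases cs.length_simple_mul w t with h1 | h1
  · exact absurd ⟨e, he, w, rfl, by omega⟩ hx
  · omega

theorem hf_fix (h : RA bd cs C mir) (t : T) (i : ℕ) {x : F i} (hx : x ∈ Hf cs C t i)
    (hx' : cs.simple t • x ∈ Hf cs C t i) :
    cs.simple t • x = x ∧ ∃ e ∈ C i, mir i e ≠ ∅ ∧ ∃ w : K, w • e = x := by
  obtain ⟨e, he, w, rfl, hw⟩ := hx
  obtain ⟨e', he', v, hv, hv'⟩ := hx'
  change v • e' = cs.simple t • w • e at hv
  rw [← mul_smul] at hv
  have h1 := (h.inj i e' he' e he v (cs.simple t * w)).1 hv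
  obtain ⟨rfl, h2⟩ := h1
  have h3 : w⁻¹ * (cs.simple t * v) ∈ par cs (mir i e') := by
    have h4 : w⁻¹ * (cs.simple t * v) = (v⁻¹ * (cs.simple t * w))⁻¹ := by
      rw [mul_inv_rev, mul_inv_rev, inv_inv, cs.inv_simple, mul_assoc]
    rw [h4]
    exact (par cs _).inv_mem h2
  have h5 := side_coset hw h3 (by
    rw [mul_inv_cancel_left, ← mul_assoc, cs.simple_mul_simple_self, one_mul]
    exact hv')
  constructor
  · change cs.simple t • w • e' = w • e'
    rw [← mul_smul]
    refine (h.inj i e' he e' he _ _).2 ⟨rfl, ?_⟩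
    have h6 : (cs.simple t * w)⁻¹ * w = (w⁻¹ * (cs.simple t * w))⁻¹ := by
      rw [mul_inv_rev, mul_inv_rev, mul_inv_rev, inv_inv]
    first
    | (rw [h6]; exact (par cs _).inv_mem h5)
    | exact h5
  · refine ⟨e', he, fun h6 => ?_, w, rfl⟩
    rw [h6] at h5
    have h7 : w⁻¹ * (cs.simple t * w) = 1 := by
      have : par cs (∅ : Set T) = ⊥ := by
        change Subgroup.closure (cs.simple '' ∅) = ⊥
        rw [Set.image_empty, Subgroup.closure_empty]
      rw [this] at h5
      exact Subgroup.mem_bot.1 h5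
    have h8 : cs.simple t * w = w := by
      have := congrArg (fun x => w * x) h7
      simpa using this
    rw [h8] at hw
    omega

theorem hf_face (h : RA bd cs C mir) (t : T) (i : ℕ) {x : F (i + 1)} (hx : x ∈ Hf cs C t (i + 1))
    {f : F i} (hf : bd i x f ≠ 0) : f ∈ Hf cs C t i := by
  classical
  obtain ⟨e, he, w, rfl, hw⟩ := hx
  have h3 : bd i (w • e) = (bd i e).mapDomain (fun f => w • f) := h.bd_smul i e he w
  change bd i (w • e) f ≠ 0 at hf
  rw [h3] at hf
  have h4 := Finsupp.mapDomain_support (Finsupp.mem_support_iff.2 hf)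
  obtain ⟨g, hg, rfl⟩ := Finset.mem_image.1 h4
  exact ⟨g, h.sub i e g he (Finsupp.mem_support_iff.1 hg), w, rfl, hw⟩

namespace Sp

variable {𝓕 : Sp R bd}

open scoped Classical in
theorem two_cob (h : RA bd cs C mir) {n : ℕ} (hW : ∀ e ∈ C (n + 1), mir (n + 1) e = ∅) (t : T)
    {z : F (n + 1) → R} (hz : ∀ x ∉ Hf cs C t (n + 1), z x = 0)
    (hc : 𝓕.Cob (fun _ => Set.univ) n (z - fun x => z (cs.simple t • x))) :
    𝓕.Cob (fun _ => Set.univ) n ((2 : ℤ) • z) := by
  obtain ⟨y, hy, -, hy1⟩ := hc
  refine ⟨(Hf cs C t n).indicator (y - fun x => y (cs.simple t • x)),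
    𝓕.ind (sub_mem hy (tr_memF 𝓕 n y hy _)) _, fun _ he => absurd trivial he, fun e _ => ?_⟩
  by_cases he : e ∈ Hf cs C t (n + 1)
  · have h1 : cs.simple t • e ∉ Hf cs C t (n + 1) := by
      intro h1
      obtain ⟨-, e', he', h2, -⟩ := hf_fix h t _ he h1
      exact h2 (hW e' he')
    have h2 : cb bd n ((Hf cs C t n).indicator (y - fun x => y (cs.simple t • x))) e =
        cb bd n (y - fun x => y (cs.simple t • x)) e :=
      cb_congr n _ _ e fun f hf => Set.indicator_of_mem (hf_face h t n he hf) _
    rw [h2, cb_sub, Pi.sub_apply, ← cb_smul h, ← hy1 _ trivial, ← hy1 _ trivial, Pi.sub_apply,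
      Pi.sub_apply, Pi.smul_apply, hz _ h1, ← mul_smul, cs.simple_mul_simple_self, one_smul,
      two_smul]
    abel
  · have h1 := hf_or h t _ he
    rw [Pi.smul_apply, hz e he, smul_zero]
    refine (cb_eq_zero n _ e fun f hf => ?_).symm
    by_cases hfH : f ∈ Hf cs C t n
    · rw [Set.indicator_of_mem hfH, Pi.sub_apply]
      have h2 : bd n (cs.simple t • e) (cs.simple t • f) ≠ 0 := by
        obtain ⟨e', he', w, rfl⟩ := h.surj (n + 1) e trivial
        have h3 : bd n ((cs.simple t * w) • e') =
          (bd n e').mapDomain (fun f => (cs.simple t * w) • f) := h.bd_smul n e' he' _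
        have h4 : bd n (w • e') = (bd n e').mapDomain (fun f => w • f) := h.bd_smul n e' he' w
        change bd n (cs.simple t • w • e') _ ≠ 0
        rw [← mul_smul, h3]
        change bd n (w • e') f ≠ 0 at hf
        rw [h4] at hf
        have h5 : (bd n e').mapDomain (fun f => (cs.simple t * w) • f) =
            ((bd n e').mapDomain (fun f => w • f)).mapDomain (fun f => cs.simple t • f) := by
          rw [← Finsupp.mapDomain_comp]
          congr 1
          funext g
          exact mul_smul _ _ _
        rw [h5]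
        have h6 := Finsupp.mapDomain_apply (MulAction.injective (cs.simple t))
          ((bd n e').mapDomain (fun f => w • f)) f
        rw [h6]
        exact hf
      have h3 := hf_face h t n h1 h2
      rw [(hf_fix h t n hfH h3).1, sub_self]
    · exact Set.indicator_of_notMem hfH _

/-- the sign of the reflections is automatic -/
theorem neg_of_dim (h : RA bd cs C mir) {n : ℕ} (hE : IsEmpty (F (n + 2)))
    (hW : ∀ e ∈ C (n + 1), mir (n + 1) e = ∅) (hz : 𝓕.HZ (fun _ => Set.univ) n) :
    𝓕.Neg cs n := by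
  intro t
  obtain ⟨z₀, hz₀, hu⟩ := hz
  have hcoc : ∀ z ∈ 𝓕.mem (n + 1), 𝓕.Coc (fun _ => Set.univ) n z := fun z hz =>
    ⟨hz, fun _ he => absurd trivial he, fun e _ => hE.elim e⟩
  have htt : ∀ z : F (n + 1) → R, (fun x => (fun x => z (cs.simple t • x)) (cs.simple t • x)) = z := by
    intro z
    funext x
    change z (cs.simple t • cs.simple t • x) = z x
    rw [← mul_smul, cs.simple_mul_simple_self, one_smul]
  have htc : ∀ z : F (n + 1) → R, 𝓕.Cob (fun _ => Set.univ) n z →
      𝓕.Cob (fun _ => Set.univ) n (fun x => z (cs.simple t • x)) := fun z hz => tr_cob h n hz _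
  obtain ⟨ε, hε, -⟩ := hu _ (hcoc (fun x => z₀ (cs.simple t • x)) (tr_memF 𝓕 _ _ hz₀.mem _))
  change 𝓕.Cob _ n ((fun x => z₀ (cs.simple t • x)) - ε • z₀) at hε
  -- uniqueness
  have huq : ∀ m : ℤ, 𝓕.Cob (fun _ => Set.univ) n (m • z₀) → m = 0 := by
    intro m hm
    obtain ⟨k, hk, hk'⟩ := hu _ (hz₀.zsmul 0)
    have h1 := hk' 0 (by
      change 𝓕.Cob _ n ((0 : ℤ) • z₀ - (0 : ℤ) • z₀)
      rw [sub_self]
      exact Cob.zero)
    have h2 := hk' (-m) (by
      change 𝓕.Cob _ n ((0 : ℤ) • z₀ - (-m) • z₀)
      rw [zero_smul, neg_smul, sub_neg_eq_add, zero_add]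
      exact hm)
    omega
  have h1 : ε * ε = 1 := by
    have h2 := htc _ hε
    have h3 : 𝓕.Cob (fun _ => Set.univ) n ((1 - ε * ε) • z₀) := by
      have h4 := h2.add (hε.zsmul ε)
      refine h4.congr fun e _ => ?_
      have h5 := congrFun (htt z₀) e
      change z₀ (cs.simple t • cs.simple t • e) = z₀ e at h5
      change (1 - ε * ε) • z₀ e = (z₀ (cs.simple t • cs.simple t • e) - ε • z₀ (cs.simple t • e)) +
        ε • (z₀ (cs.simple t • e) - ε • z₀ e)
      rw [h5, sub_smul, one_smul, smul_sub, mul_smul]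
      abel
    have h6 := huq _ h3
    omega
  have h2 : ε = 1 ∨ ε = -1 := by
    have : (ε - 1) * (ε + 1) = 0 := by linear_combination h1
    rcases mul_eq_zero.1 this with h | h
    · left; omega
    · right; omega
  rcases h2 with rfl | rfl
  · exfalso
    have h3 : ∀ z ∈ 𝓕.mem (n + 1), (∀ x ∉ Hf cs C t (n + 1), z x = 0) →
        𝓕.Cob (fun _ => Set.univ) n z := by
      intro z hz hz0
      obtain ⟨a, ha, -⟩ := hu _ (hcoc z hz)
      change 𝓕.Cob _ n (z - a • z₀) at ha
      have h4 := htc _ ha
      have h5 : 𝓕.Cob (fun _ => Set.univ) n (z - fun x => z (cs.simple t • x)) := by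
        refine ((ha.sub h4).sub (hε.zsmul a)).congr fun e _ => ?_
        change z e - z (cs.simple t • e) = (z e - a • z₀ e) - (z (cs.simple t • e) -
          a • z₀ (cs.simple t • e)) - a • (z₀ (cs.simple t • e) - (1 : ℤ) • z₀ e)
        rw [one_smul, smul_sub]
        abel
      have h6 := two_cob h hW t hz0 h5
      have h7 : 𝓕.Cob (fun _ => Set.univ) n ((2 * a) • z₀) := by
        refine (h6.sub (ha.zsmul 2)).congr fun e _ => ?_
        change (2 * a) • z₀ e = (2 : ℤ) • z e - (2 : ℤ) • (z e - a • z₀ e)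
        rw [smul_sub, mul_smul]
        abel
      have h8 := huq _ h7
      have h9 : a = 0 := by omega
      rw [h9, zero_smul, sub_zero] at ha
      exact ha
    classical
    have h4 := h3 ((Hf cs C t (n + 1)).indicator z₀) (𝓕.ind hz₀.mem _)
      (fun x hx => Set.indicator_of_notMem hx _)
    set z₂ := z₀ - (Hf cs C t (n + 1)).indicator z₀ with hz₂
    have h5 := h3 (fun x => z₂ (cs.simple t • x))
      (tr_memF 𝓕 _ _ (sub_mem hz₀.mem (𝓕.ind hz₀.mem _)) _) (fun x hx => by
        change z₀ (cs.simple t • x) - (Hf cs C t (n + 1)).indicator z₀ (cs.simple t • x) = 0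
        rw [Set.indicator_of_mem (hf_or h t _ hx), sub_self])
    have h6 := htc _ h5
    rw [htt z₂] at h6
    have h7 := h6.add h4
    rw [hz₂, sub_add_cancel] at h7
    have h8 := huq 1 (by rwa [one_smul])
    exact one_ne_zero h8
  · intro z hz
    obtain ⟨a, ha, -⟩ := hu _ hz
    change 𝓕.Cob _ n (z - a • z₀) at ha
    have h4 := htc _ ha
    refine ((ha.add h4).add (hε.zsmul a)).congr fun e _ => ?_
    change z (cs.simple t • e) + z e = (z e - a • z₀ e) + (z (cs.simple t • e) -
      a • z₀ (cs.simple t • e)) + a • (z₀ (cs.simple t • e) - (-1 : ℤ) • z₀ e)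
    rw [neg_smul, one_smul, smul_sub, smul_neg]
    abel

end Sp

end

end Pool.Agent.U838.RT
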