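import Pool.Agent.U838.RT.Fix
import Pool.Agent.U838.RT.Sign
import Pool.Agent.Results.MP_9f173d_gt.FoldedSubcomplexes

/-!
# Zero in the spectrum and the fixed sets of finite reflection groups
-/

set_option autoImplicit false

namespace Pool.Agent.U838.RT

open Pool.Agent.H919R4.ZS (FinRes toRed)
open Pool.Agent.Q169.FT (Refl IsSub IsCo IsCb HcZ Inh fc)
open Pool.Agent.Q169.ZD (par)
open Pool.Agent.TH38.CX (AcyclicGComplex)
open Pool.Agent.Q111.FT (bd_single_sum bd_coeff)

noncomputable section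

theorem loc_fin {N : Type} [Group N] (U : AcyclicGComplex N)
    (hU : ∀ i (n : N) (e : U.E i), n • e = e → n = 1)
    (c : ℕ → ℕ) (rep : ∀ i, Fin (c i) → U.E i)
    (hrep : ∀ i (e : U.E i), ∃! a, e ∈ MulAction.orbit N (rep i a)) :
    ∀ i f, {e | bdU U i e f ≠ 0}.Finite := by
  intro i f
  have hor : ∀ (j : ℕ) (e : U.E j), ∃ (a : Fin (c j)) (n : N), e = n • rep j a := by
    intro j e
    obtain ⟨a, ⟨n, hn⟩, -⟩ := hrep j e
    exact ⟨a, n, hn.symm⟩
  have h1 : {e : U.E (i + 1) | U.bd i (Finsupp.single e 1) f ≠ 0} ⊆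
      ⋃ a : Fin (c (i + 1)), ⋃ g ∈ (U.bd i (Finsupp.single (rep (i + 1) a) 1)).support,
        (fun k : N => k • rep (i + 1) a) '' {k : N | k⁻¹ • f = g} := by
    intro e he
    obtain ⟨a, n, rfl⟩ := hor (i + 1) e
    simp only [Set.mem_iUnion]
    refine ⟨a, n⁻¹ • f, ?_, n, rfl, rfl⟩
    rw [Finsupp.mem_support_iff, ← bd_coeff U i n, smul_inv_smul]
    exact he
  refine Set.Finite.subset (Set.finite_iUnion fun a => ?_) h1
  refine Set.Finite.biUnion (Finset.finite_toSet _) fun g _ => ?_
  apply Set.Finite.image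
  apply Set.Subsingleton.finite
  intro k hk k' hk'
  simp only [Set.mem_ofPred_eq] at hk hk'
  have h2 : (k' * k⁻¹) • f = f := by
    rw [mul_smul, hk, ← hk', smul_inv_smul]
  have h3 := hU i _ f h2
  rw [mul_inv_eq_one] at h3
  exact h3.symm

theorem exists_rep {L E : Type} [Group L] [MulAction L E] (s : Finset E)
    (h : ∀ e : E, ∃ l : L, l • e ∈ s) :
    ∃ (c : ℕ) (rep : Fin c → E), ∀ e, ∃! a, e ∈ MulAction.orbit L (rep a) := by
  classical
  choose l hl using h
  have hfin : Finite (MulAction.orbitRel.Quotient L E) := by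
    refine Finite.of_injective (fun q : MulAction.orbitRel.Quotient L E =>
      (⟨l q.out • q.out, hl q.out⟩ : {e // e ∈ s})) ?_
    intro q q' hqq
    have h1 : l q.out • q.out = l q'.out • q'.out := congrArg Subtype.val hqq
    rw [← q.out_eq, ← q'.out_eq]
    refine Quotient.sound ?_
    change q.out ∈ MulAction.orbit L q'.out
    refine ⟨(l q.out)⁻¹ * l q'.out, ?_⟩
    change ((l q.out)⁻¹ * l q'.out) • q'.out = q.out
    rw [mul_smul, ← h1, inv_smul_smul]
  have e := Finite.equivFin (MulAction.orbitRel.Quotient L E)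
  refine ⟨_, fun a => (e.symm a).out, fun x => ⟨e (Quotient.mk _ x), ?_, ?_⟩⟩
  · change x ∈ MulAction.orbit L (e.symm (e (Quotient.mk _ x))).out
    rw [e.symm_apply_apply]
    have h1 := Quotient.exact (Quotient.out_eq (Quotient.mk (MulAction.orbitRel L E) x))
    have h2 : (Quotient.mk (MulAction.orbitRel L E) x).out ∈ MulAction.orbit L x := h1
    exact (MulAction.orbit_eq_iff.2 h2) ▸ MulAction.mem_orbit_self x
  · intro a ha
    have h1 : x ∈ MulAction.orbit L (e.symm a).out := ha
    rw [← e.apply_symm_apply a]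
    congr 1
    rw [← (e.symm a).out_eq]
    exact (Quotient.sound h1).symm

section

variable {P : Type} [Finite P] {E : ℕ → Type} {T : Type} {C : ∀ i, Set (E i)}
  {mir : ∀ i, E i → Set T}

omit [Finite P] in
theorem SS_shift : SS (setS P C) (mirS P mir) Set.univ ∅ = setS P (SS C mir Set.univ ∅) := by
  funext i
  cases i with
  | zero =>
    refine Set.eq_univ_of_forall fun e => ?_
    exact ⟨trivial, subset_rfl, fun _ _ h => h⟩
  | succ i => rfl

theorem SS_fc : SS C mir Set.univ ∅ = fc C mir Set.univ := by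
  funext i
  ext e
  constructor
  · exact fun h => ⟨h.1, h.2.1⟩
  · exact fun h => ⟨h.1, h.2, fun _ _ h => h⟩

end

/-- `U` is a homology manifold of dimension `n = d + card T` (its cohomology with compact supports
is that of `ℝ^n`), and the reflections reverse the orientation. -/
structure Dual {N : Type} [Group N] (U : AcyclicGComplex N) {T K : Type} [Group K]
    {M : CoxeterMatrix T} (cs : CoxeterSystem M K) (A : ∀ i, K → U.E i → U.E i)
    (C : ∀ i, Set (U.E i)) (mir : ∀ i, U.E i → Set T) (n : ℕ) : Prop where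
  hcz : HcZ U n
  van : ∀ i, i ≠ n → ∀ z, IsCo U i z → IsCb U i z
  sign : (∀ (t : T) (z : U.E n →₀ ℤ), IsCo U n z →
      IsCb U n (z.mapDomain (A n (cs.simple t)) + z)) ∨
    (IsEmpty (U.E (n + 1)) ∧ ∀ e ∈ C n, mir n e = ∅)

section

variable {N : Type} [Group N] {U : AcyclicGComplex N}
  {T : Type} {M : CoxeterMatrix T} {K : Type} [Group K] {cs : CoxeterSystem M K}
  [h0 : ∀ i, MulAction K (U.E i)] {C : ∀ i, Set (U.E i)} {mir : ∀ i, U.E i → Set T}

theorem univ_eq : rg (V := U) (U := U) (fun i e => e) = fun _ => Set.univ := by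
  funext i
  cases i with
  | zero => rfl
  | succ i => exact Set.range_id

/-- duality of the fixed set -/
theorem dual_fix (hR : RA (bdU U) cs C mir) (hloc : ∀ i f, {e | bdU U i e f ≠ 0}.Finite) {n : ℕ}
    (hD : Dual U cs (fun _ k e => k • e) C mir n) {d : ℕ} (hd : n = d + Nat.card T) :
    (fs (bdS Empty (bdU U)) (loc_shift hloc)).HZ (setS Empty (fc C mir Set.univ)) d := by
  classical
  have hK := hR.finite
  have hT : Finite T := Finite.of_injective cs.simple fun a b hab => Q27.Cox.simple_inj cs hab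
  have : Fintype T := Fintype.ofFinite T
  have hidb : ∀ i (e : U.E (i + 1)), U.bd i (Finsupp.single e 1) =
      (U.bd i (Finsupp.single e 1)).mapDomain (fun e => e) := fun i e => Finsupp.mapDomain_id.symm
  have hidi : ∀ i, Function.Injective (fun e : U.E i => e) := fun i => Function.injective_id
  have hE := univ_eq (U := U)
  set 𝓕 := fs (bdS Empty (bdU U)) (loc_shift hloc) with h𝓕
  have hz : 𝓕.HZ (fun _ => Set.univ) n := by
    have := (hz_iff (V := U) hidi hidb hloc n).2 hD.hcz
    rwa [hE] at this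
  have hvan : ∀ i, i ≠ n → 𝓕.Van (fun _ => Set.univ) i := by
    intro i hi
    have := (van_iff (V := U) hidi hidb hloc i).2 (hD.van i hi)
    rwa [hE] at this
  have hng : 𝓕.Neg cs n := by
    rcases hD.sign with hneg | ⟨he, hm⟩
    · intro t z hz
      rw [← hE] at hz ⊢
      obtain ⟨w, rfl⟩ := hat_surj (U := U) hidi n z hz.mem hz.supp
      have h1 := (cob_hat (V := U) hidi hidb hloc n _).2
        (hneg t w ((coc_hat (V := U) hidi hidb hloc n w).1 hz))
      refine h1.congr fun e _ => ?_
      have h2 : ∀ v : U.E n →₀ ℤ, hat (V := U) (U := U) (fun i e => e) n v = ⇑v := by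
        intro v
        change ⇑(Finsupp.mapDomain (id : U.E n → U.E n) v) = ⇑v
        rw [Finsupp.mapDomain_id]
      have h3 : ∀ e : U.E n, w (cs.simple t • e) + w e =
          (w.mapDomain (fun e => cs.simple t • e) + w) e := by
        intro e
        rw [Finsupp.add_apply]
        congr 1
        conv_rhs => rw [show e = cs.simple t • cs.simple t • e by
          rw [← mul_smul, cs.simple_mul_simple_self, one_smul]]
        exact (Finsupp.mapDomain_apply (MulAction.injective _) w (cs.simple t • e)).symm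
      rw [h2, h2]
      exact h3 e
    · exact Sp.neg_of_dim (𝓕 := 𝓕) (ra_shift (P := Empty) hR) he hm hz
  have hcard : n = d + (Finset.univ : Finset T).card := by
    rw [Finset.card_univ, ← Nat.card_eq_fintype_card]
    exact hd
  have h1 := Sp.hz_SS (𝓕 := 𝓕) (dd_shift_empty (dd_U U)) (ra_shift (P := Empty) hR) hvan hz hng
    (Finset.univ : Finset T) ∅ d hcard (by rw [Finset.coe_univ, Set.univ_union])
    (Set.disjoint_empty _)
  rw [Finset.coe_univ, SS_shift, SS_fc] at h1
  exact h1

end

/-- the fixed set of a reflection group: duality and acyclicity; zero in the spectrum -/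
theorem main {N : Type} [Group N] (U : AcyclicGComplex N)
    (hU : ∀ i (n : N) (e : U.E i), n • e = e → n = 1)
    (c : ℕ → ℕ) (rep : ∀ i, Fin (c i) → U.E i)
    (hrep : ∀ i (e : U.E i), ∃! a, e ∈ MulAction.orbit N (rep i a))
    {T : Type} {M : CoxeterMatrix T} {K : Type} [Group K] (cs : CoxeterSystem M K)
    [h0 : ∀ i, MulAction K (U.E i)] (C : ∀ i, Set (U.E i)) (mir : ∀ i, U.E i → Set T)
    (hR : RA (bdU U) cs C mir)
    (L : Subgroup N)
    (hL : ∀ l ∈ L, ∀ i, ∀ e ∈ fc C mir Set.univ i, l • e ∈ fc C mir Set.univ i)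
    (hfin : ∀ i, ∃ s : Finset (U.E i), ∀ e ∈ fc C mir Set.univ i, ∃ l ∈ L, l • e ∈ s)
    (h : (∃ (Y : FinRes L) (i : ℕ), Nontrivial (Y.homology (toRed L) i)) ∨
      ∃ n d, Dual U cs (fun _ k e => k • e) C mir n ∧ n = d + Nat.card T ∧ d ≤ 3) :
    Nonempty (FinRes N) ∧ ∀ X : FinRes N, ∃ i, Nontrivial (X.homology (toRed N) i) := by
  classical
  have hK := hR.finite
  have hT : Finite T := Finite.of_injective cs.simple fun a b hab => Q27.Cox.simple_inj cs hab
  have : Fintype T := Fintype.ofFinite T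
  have hloc := loc_fin U hU c rep hrep
  have hsub : IsSub (bdU U) (fc C mir Set.univ) :=
    fun i e f he hf => ⟨hR.sub i e f he.1 hf, he.2.trans (hR.face i e he.1 f hf)⟩
  -- acyclicity
  have hac : AcSub U (fc C mir Set.univ) := by
    refine acSub_of_van hsub fun R _ i => ?_
    have h1 := Sp.van_SS (𝓕 := top (bdS Empty (bdS Unit (bdU U))) R) (dd_U'' U)
      (ra_shift (P := Empty) (ra_shift (P := Unit) hR))
      (fun i => van_of_ce (dd_U'' U) (ce_U U) i) (Finset.univ : Finset T) ∅ i
    rw [Finset.coe_univ, SS_shift, SS_shift, SS_fc] at h1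
    exact h1
  -- the complex
  set V := VV (fc C mir Set.univ) hac L hL with hV
  have hVi : ∀ i, Function.Injective (fun e : V.E i => (e.1 : U.E i)) :=
    fun i => Subtype.val_injective
  have hVb : ∀ i (e : V.E (i + 1)), U.bd i (Finsupp.single (e.1 : U.E (i + 1)) 1) =
      (V.bd i (Finsupp.single e 1)).mapDomain (fun e : V.E i => (e.1 : U.E i)) := by
    intro i e
    have h1 := vb_map hsub i (Finsupp.single
      (⟨e.1, e.2⟩ : {x : U.E (i + 1) // x ∈ fc C mir Set.univ (i + 1)}) 1)
    have h2 : Finsupp.mapDomain Subtype.val (Finsupp.single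
      (⟨e.1, e.2⟩ : {x : U.E (i + 1) // x ∈ fc C mir Set.univ (i + 1)}) (1 : ℤ)) =
      Finsupp.single e.1 1 := Finsupp.mapDomain_single
    exact (congrArg (U.bd i) h2).symm.trans h1.symm
  have hrg : (fun i => Set.range (fun e : V.E i => (e.1 : U.E i))) = fc C mir Set.univ := by
    funext i
    exact Subtype.range_val
  have hVfree : ∀ i (l : L) (e : V.E i), l • e = e → l = 1 := by
    intro i l e h1
    have h2 : (l : N) • e.1 = e.1 := congrArg Subtype.val h1
    exact Subtype.ext (hU i _ _ h2)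
  have hVrep : ∀ i, ∃ (c : ℕ) (rep : Fin c → V.E i), ∀ e, ∃! a, e ∈ MulAction.orbit L (rep a) := by
    intro i
    obtain ⟨s, hs⟩ := hfin i
    refine exists_rep (s.subtype (fun e => e ∈ fc C mir Set.univ i)) fun e => ?_
    obtain ⟨l, hl, hle⟩ := hs e.1 e.2
    exact ⟨⟨l, hl⟩, Finset.mem_subtype.2 hle⟩
  choose c' rep' hrep' using hVrep
  refine Pool.Agent.Results.MP_9f173d_gt.FoldedSubcomplexes.result U hU c rep hrep V hVfree c'
    rep' hrep' (fun i e => e.1) hVi hVb ?_ ?_
  · rw [hrg]
    exact Inh.face cs Inh.base hR Set.univ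
  · rcases h with h | ⟨n, d, hD, hd, hd3⟩
    · exact Or.inl h
    · refine Or.inr ⟨d, hd3, (hz_iff (V := V) hVi hVb hloc d).1 ?_⟩
      unfold rg
      rw [hrg]
      exact dual_fix hR hloc hD hd

end

end Pool.Agent.U838.RT
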