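import Pool.Agent.U838.RT.Coh
import Pool.Agent.U838.FT.Refl

/-!
# Finite reflection groups and the cohomology of the faces of the chamber
-/

set_option autoImplicit false

namespace Pool.Agent.U838.RT

open Pool.Agent.Q169.FT (Refl IsSub)
open Pool.Agent.Q169.ZD (par)
open Pool.Agent.U838.FT (par_mono simple_mem_par par_inter_compl KJ mem_KJ)

noncomputable section

section cox

variable {T : Type} {M : CoxeterMatrix T} {K : Type} [Group K] (cs : CoxeterSystem M K)

/-- the sign of an element of a Coxeter group -/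
def sn (w : K) : ℤ := (-1) ^ cs.length w

theorem sn_one : sn cs 1 = 1 := by
  unfold sn
  rw [cs.length_one, pow_zero]

theorem sn_mul_simple (w : K) (t : T) : sn cs (w * cs.simple t) = - sn cs w := by
  unfold sn
  rcases cs.length_mul_simple w t with h | h
  · rw [h, pow_succ]
    ring
  · rw [← h, pow_succ]
    ring

theorem sn_simple_mul (w : K) (t : T) : sn cs (cs.simple t * w) = - sn cs w := by
  unfold sn
  rcases cs.length_simple_mul w t with h | h
  · rw [h, pow_succ]
    ring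
  · rw [← h, pow_succ]
    ring

theorem sn_sq (w : K) : sn cs w * sn cs w = 1 := by
  unfold sn
  rw [← mul_pow]
  norm_num

theorem sn_mul (u v : K) : sn cs (u * v) = sn cs u * sn cs v := by
  refine cs.simple_induction_left (p := fun u => sn cs (u * v) = sn cs u * sn cs v) u ?_ ?_
  · rw [one_mul, sn_one, one_mul]
  · intro w t h
    rw [mul_assoc, sn_simple_mul, h, sn_simple_mul]
    ring

theorem sn_inv (u : K) : sn cs u⁻¹ = sn cs u := by
  unfold sn
  rw [cs.length_inv]

end cox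

variable {R : Type} [AddCommGroup R] {F : ℕ → Type} {bd : ∀ i, F (i + 1) → (F i →₀ ℤ)}
  {T : Type} {M : CoxeterMatrix T} {K : Type} [Group K] {cs : CoxeterSystem M K}
  [∀ i, MulAction K (F i)] {C : ∀ i, Set (F i)} {mir : ∀ i, F i → Set T}

/-- the cells of the face with index `I` of the chamber off the walls with index in `J` -/
def SS (C : ∀ i, Set (F i)) (mir : ∀ i, F i → Set T) (I J : Set T) : ∀ i, Set (F i) :=
  fun i => {e | e ∈ C i ∧ I ⊆ mir i e ∧ mir i e ⊆ Jᶜ}

open scoped Classical in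
/-- the extension of a cochain of the chamber -/
def Ph (C : ∀ i, Set (F i)) (H : Subgroup K) (i : ℕ) (c : F i → R) : F i → R := fun x =>
  if h : ∃ e ∈ C i, ∃ w ∈ H, w • e = x then c h.choose else 0

variable (bd cs C mir) in
/-- the reflection group `K` acts on the complex with the chamber `C` -/
abbrev RA : Prop := Refl bd cs (fun _ => Set.univ) C mir (fun _ e w => w • e)

theorem inj_left (h : RA bd cs C mir) (i : ℕ) {e e' : F i} (he : e ∈ C i) (he' : e' ∈ C i)
    {w w' : K} (hw : w • e = w' • e') : e = e' :=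
  ((h.inj i e he e' he' w w').1 hw).1

theorem Ph_mem (h : RA bd cs C mir) (H : Subgroup K) (i : ℕ) (c : F i → R) {e : F i}
    (he : e ∈ C i) {w : K} (hw : w ∈ H) : Ph C H i c (w • e) = c e := by
  have h1 : ∃ e' ∈ C i, ∃ w' ∈ H, w' • e' = w • e := ⟨e, he, w, hw, rfl⟩
  unfold Ph
  rw [dif_pos h1]
  obtain ⟨h2, w', -, h3⟩ := h1.choose_spec
  rw [inj_left h i h2 he h3]

theorem Ph_notMem (h : RA bd cs C mir) (J : Set T) (i : ℕ) (c : F i → R)
    (hc : ∀ e ∉ SS C mir ∅ J i, c e = 0) {e : F i}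
    (he : e ∈ C i) {w : K} (hw : w ∉ par cs Jᶜ) : Ph C (par cs Jᶜ) i c (w • e) = 0 := by
  unfold Ph
  split_ifs with h1
  · obtain ⟨h2, w', hw', h3⟩ := h1.choose_spec
    have h4 := (h.inj i _ h2 e he w' w).1 h3
    rw [h4.1]
    refine hc e fun h5 => hw ?_
    have h8 := h4.2
    rw [h4.1] at h8
    have h9 := (par cs Jᶜ).mul_mem hw' (par_mono cs h5.2.2 h8)
    rwa [mul_inv_cancel_left] at h9
  · rfl

open scoped Classical in
theorem Ph_apply (h : RA bd cs C mir) (J : Set T) (i : ℕ) (c : F i → R)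
    (hc : ∀ e ∉ SS C mir ∅ J i, c e = 0) {e : F i} (he : e ∈ C i) (w : K) :
    Ph C (par cs Jᶜ) i c (w • e) = if w ∈ par cs Jᶜ then c e else 0 := by
  split_ifs with hw
  · exact Ph_mem h _ i c he hw
  · exact Ph_notMem h J i c hc he hw

theorem cb_smul (h : RA bd cs C mir) (i : ℕ) (b : F i → R) (x : F (i + 1)) (w : K) :
    cb bd i b (w • x) = cb bd i (fun f => b (w • f)) x := by
  have h1 : bd i (w • x) = (bd i x).mapDomain (fun f => w • f) := by
    obtain ⟨e, he, v, rfl⟩ := h.surj (i + 1) x trivial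
    have h2 : bd i ((w * v) • e) = (bd i e).mapDomain (fun f => (w * v) • f) :=
      h.bd_smul i e he (w * v)
    have h3 : bd i (v • e) = (bd i e).mapDomain (fun f => v • f) := h.bd_smul i e he v
    change bd i (w • v • e) = (bd i (v • e)).mapDomain (fun f => w • f)
    rw [h3, ← Finsupp.mapDomain_comp, ← mul_smul, h2]
    congr 1
    funext f
    exact mul_smul w v f
  unfold cb
  rw [h1, Finsupp.sum_mapDomain_index]
  · intro f
    exact zero_smul ℤ _
  · intro f m n
    exact add_smul m n _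

theorem Ph_memF (𝓕 : Sp R bd) (h : RA bd cs C mir) (J : Set T) (i : ℕ) (c : F i → R)
    (hm : c ∈ 𝓕.mem i) : Ph C (par cs Jᶜ) i c ∈ 𝓕.mem i := by
  classical
  have := h.finite
  refine 𝓕.pull i c _
    (fun x => if h : ∃ e ∈ C i, ∃ w ∈ par cs Jᶜ, w • e = x then h.choose else x) (Nat.card K) hm
    (fun x hx => ?_) (fun e => ?_)
  · unfold Ph at hx ⊢
    split_ifs at hx ⊢ with h1
    · rfl
    · exact absurd rfl hx
  · have h1 : {x | Ph C (par cs Jᶜ) i c x ≠ 0 ∧
        (if h : ∃ e ∈ C i, ∃ w ∈ par cs Jᶜ, w • e = x then h.choose else x) = e} ⊆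
        Set.range (fun w : K => w • e) := by
      rintro x ⟨hx, hx'⟩
      split_ifs at hx' with h2
      · obtain ⟨-, w, -, h3⟩ := h2.choose_spec
        rw [hx'] at h3
        exact ⟨w, h3⟩
      · exfalso
        apply hx
        unfold Ph
        rw [dif_neg h2]
    refine (Set.encard_le_encard h1).trans ?_
    rw [← Set.image_univ]
    refine (Set.encard_image_le _ _).trans ?_
    rw [Set.encard_univ, ENat.card_eq_coe_natCard]

theorem mir_face (h : RA bd cs C mir) (J : Set T) (i : ℕ) {e : F (i + 1)} (he : e ∈ C (i + 1))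
    (hn : e ∉ SS C mir ∅ J (i + 1)) (f : F i) (hf : bd i e f ≠ 0) : f ∉ SS C mir ∅ J i :=
  fun h1 => hn ⟨he, Set.empty_subset _, (h.face i e he f hf).trans h1.2.2⟩

open scoped Classical in
theorem cb_Ph (h : RA bd cs C mir) (J : Set T) (i : ℕ) (c : F i → R)
    (hc : ∀ e ∉ SS C mir ∅ J i, c e = 0) {e : F (i + 1)} (he : e ∈ C (i + 1)) (w : K) :
    cb bd i (Ph C (par cs Jᶜ) i c) (w • e) = if w ∈ par cs Jᶜ then cb bd i c e else 0 := by
  rw [cb_smul h]
  split_ifs with hw
  · exact cb_congr i _ c e fun f hf => Ph_mem h _ i c (h.sub i e f he hf) hw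
  · exact cb_eq_zero (bd := bd) i _ e fun f hf => Ph_notMem h J i c hc (h.sub i e f he hf) hw

/-- the alternating sum -/
def Al (cs : CoxeterSystem M K) (C : ∀ i, Set (F i)) (hK : Finite K)
    (H : Subgroup K) (i : ℕ) (b : F i → R) : F i → R :=
  ∑ u ∈ KJ hK H, sn cs u • (C i).indicator (fun e => b (u • e))

theorem Al_apply (hK : Finite K) (H : Subgroup K) (i : ℕ) (b : F i → R) {e : F i} (he : e ∈ C i) :
    Al cs C hK H i b e = ∑ u ∈ KJ hK H, sn cs u • b (u • e) := by
  unfold Al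
  rw [Finset.sum_apply]
  refine Finset.sum_congr rfl fun u _ => ?_
  change sn cs u • (C i).indicator (fun e => b (u • e)) e = _
  rw [Set.indicator_of_mem he]

theorem tr_memF (𝓕 : Sp R bd) (i : ℕ) (b : F i → R) (hb : b ∈ 𝓕.mem i) (u : K) :
    (fun e => b (u • e)) ∈ 𝓕.mem i := by
  refine 𝓕.pull i b _ (fun e => u • e) 1 hb (fun x _ => rfl) (fun e => ?_)
  have h1 : {x | b (u • x) ≠ 0 ∧ u • x = e} ⊆ {u⁻¹ • e} := by
    rintro x ⟨-, rfl⟩
    rw [Set.mem_singleton_iff, inv_smul_smul]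
  exact (Set.encard_le_encard h1).trans (by rw [Set.encard_singleton]; rfl)

theorem Al_memF (𝓕 : Sp R bd) (hK : Finite K) (H : Subgroup K) (i : ℕ) (b : F i → R)
    (hb : b ∈ 𝓕.mem i) : Al cs C hK H i b ∈ 𝓕.mem i :=
  sum_mem fun u _ => zsmul_mem (𝓕.ind (tr_memF 𝓕 i b hb u) _) _

theorem Al_supp (h : RA bd cs C mir) (J : Set T) (i : ℕ) (b : F i → R) :
    ∀ e ∉ SS C mir ∅ J i, Al cs C h.finite (par cs J) i b e = 0 := by
  intro e hn
  by_cases he : e ∈ C i
  · have h0 : ∃ t ∈ mir i e, t ∈ J := by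
      by_contra h1
      push Not at h1
      exact hn ⟨he, Set.empty_subset _, fun t ht => h1 t ht⟩
    obtain ⟨t, ht, htJ⟩ := h0
    rw [Al_apply _ _ i b he]
    refine Finset.sum_involution (fun u _ => u * cs.simple t) ?_ ?_ ?_ ?_
    · intro u _
      have h1 : (u * cs.simple t) • e = u • e := by
        rw [h.inj i e he e he]
        refine ⟨rfl, ?_⟩
        rw [mul_inv_rev, inv_mul_cancel_right]
        exact (par cs _).inv_mem (simple_mem_par cs ht)
      rw [h1, sn_mul_simple, neg_smul, add_neg_cancel]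
    · intro u _ _ h1
      have : cs.simple t = 1 := by simpa using h1
      have h2 := cs.length_simple t
      rw [this, cs.length_one] at h2
      exact absurd h2 (by norm_num)
    · intro u hu
      rw [mem_KJ] at hu ⊢
      exact (par cs J).mul_mem hu (simple_mem_par cs htJ)
    · intro u _
      rw [mul_assoc, cs.simple_mul_simple_self, mul_one]
  · unfold Al
    rw [Finset.sum_apply]
    refine Finset.sum_eq_zero fun u _ => ?_
    change sn cs u • (C i).indicator (fun e => b (u • e)) e = _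
    rw [Set.indicator_of_notMem he, smul_zero]

theorem cb_Al (h : RA bd cs C mir) (H : Subgroup K) (i : ℕ) (b : F i → R)
    {e : F (i + 1)} (he : e ∈ C (i + 1)) :
    cb bd i (Al cs C h.finite H i b) e = Al cs C h.finite H (i + 1) (cb bd i b) e := by
  rw [Al_apply _ _ _ _ he]
  rw [cb_congr (bd := bd) i _ (fun f => ∑ u ∈ KJ h.finite H, sn cs u • b (u • f)) e
    fun f hf => Al_apply _ _ i b (h.sub i e f he hf)]
  simp only [cb_smul h]
  unfold cb
  simp only [Finsupp.sum, Finset.smul_sum]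
  rw [Finset.sum_comm]
  exact Finset.sum_congr rfl fun u _ => Finset.sum_congr rfl fun f _ => smul_comm _ _ _

theorem Al_Ph (h : RA bd cs C mir) (J : Set T) (i : ℕ) (c : F i → R)
    (hc : ∀ e ∉ SS C mir ∅ J i, c e = 0) :
    Al cs C h.finite (par cs J) i (Ph C (par cs Jᶜ) i c) = c := by
  funext e
  by_cases hn : e ∈ SS C mir ∅ J i
  · rw [Al_apply _ _ _ _ hn.1, Finset.sum_eq_single 1]
    · rw [Ph_mem h _ _ c hn.1 (Subgroup.one_mem _), sn_one, one_smul]
    · intro u hu hu1
      rw [Ph_notMem h J _ c hc hn.1, smul_zero]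
      intro hu2
      exact hu1 (par_inter_compl cs ((mem_KJ _ _ _).1 hu) hu2)
    · intro h1
      exact absurd ((mem_KJ _ _ _).2 (Subgroup.one_mem _)) h1
  · rw [Al_supp h J i _ e hn, hc e hn]

namespace Sp

variable {𝓕 : Sp R bd}

theorem ph_coc (h : RA bd cs C mir) (J : Set T) (i : ℕ) {c : F (i + 1) → R}
    (hc : 𝓕.Coc (SS C mir ∅ J) i c) :
    𝓕.Coc (fun _ => Set.univ) i (Ph C (par cs Jᶜ) (i + 1) c) where
  mem := Ph_memF 𝓕 h J _ c hc.mem
  supp _ he := absurd trivial he
  closed x _ := by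
    classical
    obtain ⟨e, he, w, rfl⟩ := h.surj (i + 2) x trivial
    rw [cb_Ph h J _ c hc.supp he w]
    split_ifs with hw
    · by_cases hn : e ∈ SS C mir ∅ J (i + 2)
      · exact hc.closed e hn
      · exact cb_eq_zero _ c e fun f hf => hc.supp f (mir_face h J _ he hn f hf)
    · rfl

theorem ph_cob (h : RA bd cs C mir) (J : Set T) (i : ℕ) {c : F (i + 1) → R}
    (hs : ∀ e ∉ SS C mir ∅ J (i + 1), c e = 0) (hc : 𝓕.Cob (SS C mir ∅ J) i c) :
    𝓕.Cob (fun _ => Set.univ) i (Ph C (par cs Jᶜ) (i + 1) c) := by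
  classical
  obtain ⟨y, hy, hy0, hy1⟩ := hc
  refine ⟨Ph C (par cs Jᶜ) i y, Ph_memF 𝓕 h J _ y hy, fun _ he => absurd trivial he,
    fun x _ => ?_⟩
  obtain ⟨e, he, w, rfl⟩ := h.surj (i + 1) x trivial
  rw [cb_Ph h J _ y hy0 he w, Ph_apply h J _ c hs he w]
  split_ifs with hw
  · by_cases hn : e ∈ SS C mir ∅ J (i + 1)
    · exact hy1 e hn
    · rw [hs e hn]
      exact (cb_eq_zero _ y e fun f hf => hy0 f (mir_face h J _ he hn f hf)).symm
  · rfl

theorem al_coc (h : RA bd cs C mir) (J : Set T) (i : ℕ) {b : F (i + 1) → R}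
    (hb : 𝓕.Coc (fun _ => Set.univ) i b) :
    𝓕.Coc (SS C mir ∅ J) i (Al cs C h.finite (par cs J) (i + 1) b) where
  mem := Al_memF 𝓕 _ _ _ b hb.mem
  supp := Al_supp h J _ b
  closed e he := by
    rw [cb_Al h _ _ _ he.1, Al_apply _ _ _ _ he.1]
    exact Finset.sum_eq_zero fun u _ => by rw [hb.closed _ trivial, smul_zero]

theorem al_cob (h : RA bd cs C mir) (J : Set T) (i : ℕ) {b : F (i + 1) → R}
    (hb : 𝓕.Cob (fun _ => Set.univ) i b) :
    𝓕.Cob (SS C mir ∅ J) i (Al cs C h.finite (par cs J) (i + 1) b) := by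
  obtain ⟨y, hy, -, hy1⟩ := hb
  refine ⟨Al cs C h.finite (par cs J) i y, Al_memF 𝓕 _ _ _ y hy, Al_supp h J _ y,
    fun e he => ?_⟩
  rw [cb_Al h _ _ _ he.1, Al_apply _ _ _ _ he.1, Al_apply _ _ _ _ he.1]
  exact Finset.sum_congr rfl fun u _ => by rw [hy1 _ trivial]

theorem cob_iff (h : RA bd cs C mir) (J : Set T) (i : ℕ) {c : F (i + 1) → R}
    (hs : ∀ e ∉ SS C mir ∅ J (i + 1), c e = 0) :
    𝓕.Cob (SS C mir ∅ J) i c ↔ 𝓕.Cob (fun _ => Set.univ) i (Ph C (par cs Jᶜ) (i + 1) c) := by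
  constructor
  · exact ph_cob h J i hs
  · intro h1
    have h2 := al_cob h J i h1
    rwa [Al_Ph h J _ c hs] at h2

/-- the base case of the vanishing -/
theorem van_base (h : RA bd cs C mir) (J : Set T) (i : ℕ)
    (hv : 𝓕.Van (fun _ => Set.univ) i) : 𝓕.Van (SS C mir ∅ J) i :=
  fun _ hc => (cob_iff h J i hc.supp).2 (hv _ (ph_coc h J i hc))

theorem cv_SS (h : RA bd cs C mir) (I J : Set T) : Cv bd (SS C mir I J) := by
  intro i e he f hf g hg hfg
  have h1 := h.sub _ e f he.1 hf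
  have h2 := h.face _ e he.1 f hf
  exact ⟨h1, he.2.1.trans h2, (h.face _ f h1 g hfg).trans hg.2.2⟩

theorem cl_SS (h : RA bd cs C mir) (I J : Set T) (s : T) :
    Cl bd (SS C mir I J) (SS C mir (insert s I) J) where
  le _ _ he := ⟨he.1, (Set.subset_insert _ _).trans he.2.1, he.2.2⟩
  face i e he f hf hef := ⟨hf.1, he.2.1.trans (h.face i e he.1 f hef), hf.2.2⟩

theorem diff_SS (I J : Set T) (s : T) :
    (fun i => SS C mir I J i \ SS C mir (insert s I) J i) = SS C mir I (insert s J) := by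
  funext i
  ext e
  simp only [SS, Set.mem_sdiff, Set.mem_ofPred_eq, Set.insert_subset_iff]
  constructor
  · rintro ⟨⟨h1, h2, h3⟩, h4⟩
    refine ⟨h1, h2, fun t ht => ?_⟩
    rintro (rfl | h5)
    · exact h4 ⟨h1, ⟨ht, h2⟩, h3⟩
    · exact h3 ht h5
  · rintro ⟨h1, h2, h3⟩
    refine ⟨⟨h1, h2, fun t ht h5 => h3 ht (Or.inr h5)⟩, fun h4 => ?_⟩
    exact h3 h4.2.1.1 (Or.inl rfl)

/-- **Vanishing for the faces.** -/
theorem van_SS (hdd : DD bd) (h : RA bd cs C mir) (hv : ∀ i, 𝓕.Van (fun _ => Set.univ) i)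
    (I : Finset T) : ∀ (J : Set T) (i : ℕ), 𝓕.Van (SS C mir I J) i := by
  classical
  induction I using Finset.induction_on with
  | empty =>
    intro J i
    rw [Finset.coe_empty]
    exact van_base h J i (hv i)
  | insert s I _ ih =>
    intro J i
    rw [Finset.coe_insert]
    refine van_Z hdd (cv_SS h I J) (cl_SS h I J s) (ih J i) ?_
    rw [diff_SS]
    exact ih _ _

/-! ### Duality -/

theorem tr_coc (h : RA bd cs C mir) (i : ℕ) {z : F (i + 1) → R}
    (hz : 𝓕.Coc (fun _ => Set.univ) i z) (u : K) :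
    𝓕.Coc (fun _ => Set.univ) i (fun x => z (u • x)) where
  mem := tr_memF 𝓕 _ z hz.mem u
  supp _ he := absurd trivial he
  closed x _ := by
    rw [← cb_smul h]
    exact hz.closed _ trivial

theorem tr_cob (h : RA bd cs C mir) (i : ℕ) {z : F (i + 1) → R}
    (hz : 𝓕.Cob (fun _ => Set.univ) i z) (u : K) :
    𝓕.Cob (fun _ => Set.univ) i (fun x => z (u • x)) := by
  obtain ⟨y, hy, -, hy1⟩ := hz
  exact ⟨fun x => y (u • x), tr_memF 𝓕 _ y hy u, fun _ he => absurd trivial he,
    fun x _ => by rw [← cb_smul h]; exact hy1 _ trivial⟩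

/-- the reflections act by `-1` on the cohomology in the degree `n + 1` -/
def Neg (𝓕 : Sp R bd) (cs : CoxeterSystem M K) (n : ℕ) : Prop :=
  ∀ (t : T) (z : F (n + 1) → R), 𝓕.Coc (fun _ => Set.univ) n z →
    𝓕.Cob (fun _ => Set.univ) n ((fun x => z (cs.simple t • x)) + z)

theorem tr_sn (h : RA bd cs C mir) {n : ℕ} (hneg : 𝓕.Neg cs n) (u : K) :
    ∀ z : F (n + 1) → R, 𝓕.Coc (fun _ => Set.univ) n z →
      𝓕.Cob (fun _ => Set.univ) n ((fun x => z (u • x)) - sn cs u • z) := by
  refine cs.simple_induction_left (p := fun u => ∀ z : F (n + 1) → R,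
    𝓕.Coc (fun _ => Set.univ) n z →
      𝓕.Cob (fun _ => Set.univ) n ((fun x => z (u • x)) - sn cs u • z)) u ?_ ?_
  · intro z hz
    have e1 : (fun x => z ((1 : K) • x)) - sn cs 1 • z = 0 := by
      simp only [one_smul, sn_one]
      exact sub_self z
    rw [e1]
    exact Cob.zero
  · intro w t ih z hz
    have h1 := ih _ (tr_coc h n hz (cs.simple t))
    have h2 := (hneg t z hz).zsmul (sn cs w)
    have h3 := h1.add h2
    have e1 : (fun x => z ((cs.simple t * w) • x)) - sn cs (cs.simple t * w) • z =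
        ((fun x => z (cs.simple t • w • x)) - sn cs w • fun x => z (cs.simple t • x)) +
          sn cs w • ((fun x => z (cs.simple t • x)) + z) := by
      simp only [mul_smul, sn_simple_mul, smul_add, neg_smul]
      abel
    rw [e1]
    exact h3

/-- the cohomology is torsion-free -/
theorem tf {S : ∀ i, Set (F i)} {n : ℕ} (hz : 𝓕.HZ S n) {k : ℤ} (hk : k ≠ 0)
    {z : F (n + 1) → R} (h1 : 𝓕.Coc S n z) (h2 : 𝓕.Cob S n (k • z)) : 𝓕.Cob S n z := by
  obtain ⟨z₀, hz₀, hu⟩ := hz
  obtain ⟨a, ha, -⟩ := hu z h1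
  change 𝓕.Cob S n (z - a • z₀) at ha
  obtain ⟨b, -, hb⟩ := hu (0 : F (n + 1) → R) ⟨zero_mem _, fun _ _ => rfl, fun e _ => by
    rw [cb_zero]; rfl⟩
  have h3 : (0 : ℤ) = b := hb 0 (by
    change 𝓕.Cob S n (0 - (0 : ℤ) • z₀)
    rw [zero_smul, sub_zero]
    exact Cob.zero)
  have h4 : k * a = b := hb (k * a) (by
    change 𝓕.Cob S n (0 - (k * a) • z₀)
    have := (ha.zsmul k).sub h2
    rw [smul_sub, ← mul_smul] at this
    rwa [zero_sub, show -((k * a) • z₀) = k • z - (k * a) • z₀ - k • z by abel])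
  have h5 : a = 0 := by
    rw [← h3] at h4
    exact (mul_eq_zero.1 h4).resolve_left hk
  rw [h5, zero_smul, sub_zero] at ha
  exact ha

/-- the vanishing in the presence of a reflection off `J` -/
theorem van_base' (h : RA bd cs C mir) {n : ℕ} (hv : ∀ i, i ≠ n → 𝓕.Van (fun _ => Set.univ) i)
    (hz : 𝓕.HZ (fun _ => Set.univ) n) (hneg : 𝓕.Neg cs n) (J : Set T) (hJ : J ≠ Set.univ)
    (i : ℕ) : 𝓕.Van (SS C mir ∅ J) i := by
  classical
  by_cases hi : i = n
  · subst hi
    intro c hc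
    rw [cob_iff h J i hc.supp]
    obtain ⟨s, hs⟩ := (Set.ne_univ_iff_exists_notMem J).1 hJ
    have h1 := ph_coc h J i hc
    refine tf hz two_ne_zero h1 ?_
    have h2 := hneg s _ h1
    have e1 : (fun x => Ph C (par cs Jᶜ) (i + 1) c (cs.simple s • x)) =
        Ph C (par cs Jᶜ) (i + 1) c := by
      funext x
      obtain ⟨e, he, w, rfl⟩ := h.surj (i + 1) x trivial
      rw [← mul_smul, Ph_apply h J _ c hc.supp he, Ph_apply h J _ c hc.supp he]
      have e2 : cs.simple s * w ∈ par cs Jᶜ ↔ w ∈ par cs Jᶜ :=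
        (par cs Jᶜ).mul_mem_cancel_left (simple_mem_par cs hs)
      simp only [e2]
    rw [e1] at h2
    rwa [two_smul]
  · exact van_base h J i (hv i hi)

/-- a cocycle is cohomologous to its antisymmetrisation supported on the chamber -/
theorem ph_al (h : RA bd cs C mir) {n : ℕ} (hz : 𝓕.HZ (fun _ => Set.univ) n)
    (hneg : 𝓕.Neg cs n) {z : F (n + 1) → R} (hc : 𝓕.Coc (fun _ => Set.univ) n z) :
    𝓕.Cob (fun _ => Set.univ) n
      (Ph C (par cs (Set.univ : Set T)ᶜ) (n + 1)
        (Al cs C h.finite (par cs Set.univ) (n + 1) z) - z) := by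
  classical
  have hK := h.finite
  have : Fintype K := Fintype.ofFinite K
  set a := Al cs C h.finite (par cs Set.univ) (n + 1) z with ha
  set p := Ph C (par cs (Set.univ : Set T)ᶜ) (n + 1) a with hp
  have has : ∀ e ∉ SS C mir ∅ Set.univ (n + 1), a e = 0 := Al_supp h _ _ _
  have hac : 𝓕.Coc (SS C mir ∅ Set.univ) n a := al_coc h _ n hc
  have hpc : 𝓕.Coc (fun _ => Set.univ) n p := ph_coc h _ n hac
  have htop : ∀ u : K, u ∈ par cs (Set.univ : Set T) := by
    intro u
    have h1 := cs.subgroup_closure_range_simple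
    unfold par
    rw [Set.image_univ, h1]
    trivial
  have hbot : par cs (Set.univ : Set T)ᶜ = ⊥ := by
    unfold par
    rw [Set.compl_univ, Set.image_empty, Subgroup.closure_empty]
  have e1 : ∑ u : K, sn cs u • (fun x => z (u • x)) = ∑ w : K, sn cs w • (fun x => p (w⁻¹ • x)) := by
    funext x
    obtain ⟨e, he, v, rfl⟩ := h.surj (n + 1) x trivial
    rw [Finset.sum_apply, Finset.sum_apply]
    change ∑ u : K, sn cs u • z (u • v • e) = ∑ w : K, sn cs w • p (w⁻¹ • v • e)
    have e2 : ∑ w : K, sn cs w • p (w⁻¹ • v • e) = sn cs v • a e := by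
      rw [Finset.sum_eq_single v]
      · rw [inv_smul_smul]
        congr 1
        have := Ph_mem h (par cs (Set.univ : Set T)ᶜ) (n + 1) a he (Subgroup.one_mem _)
        rwa [one_smul] at this
      · intro w _ hw
        rw [← mul_smul, hp, Ph_notMem h _ _ a has he, smul_zero]
        rw [hbot, Subgroup.mem_bot]
        intro h1
        exact hw (inv_mul_eq_one.1 h1)
      · intro h1
        exact absurd (Finset.mem_univ _) h1
    have e3 : KJ h.finite (par cs (Set.univ : Set T)) = Finset.univ := by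
      ext u
      rw [mem_KJ]
      simp [htop u]
    rw [e2, ha, Al_apply _ _ _ _ he, e3, Finset.smul_sum]
    refine Fintype.sum_equiv (Equiv.mulRight v) _ _ fun u => ?_
    change sn cs u • z (u • v • e) = sn cs v • sn cs (u * v) • z ((u * v) • e)
    rw [mul_smul u v e, ← mul_smul (sn cs v), sn_mul]
    congr 1
    have := sn_sq cs v
    rw [mul_comm (sn cs u), ← mul_assoc, this, one_mul]
  have h1 : 𝓕.Cob (fun _ => Set.univ) n
      (∑ u : K, sn cs u • ((fun x => z (u • x)) - sn cs u • z)) := by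
    refine Finset.sum_induction _ (fun y => 𝓕.Cob (fun _ => Set.univ) n y)
      (fun _ _ => Cob.add) Cob.zero fun u _ => (tr_sn h hneg u z hc).zsmul _
  have h2 : 𝓕.Cob (fun _ => Set.univ) n
      (∑ w : K, sn cs w • ((fun x => p (w⁻¹ • x)) - sn cs w • p)) := by
    refine Finset.sum_induction _ (fun y => 𝓕.Cob (fun _ => Set.univ) n y)
      (fun _ _ => Cob.add) Cob.zero fun u _ => ?_
    have := (tr_sn h hneg u⁻¹ p hpc).zsmul (sn cs u)
    rwa [sn_inv] at this
  have h3 := h1.sub h2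
  have e4 : (∑ u : K, sn cs u • ((fun x => z (u • x)) - sn cs u • z)) -
      (∑ w : K, sn cs w • ((fun x => p (w⁻¹ • x)) - sn cs w • p)) =
      ((Fintype.card K : ℕ) : ℤ) • (p - z) := by
    have e5 : ∀ q : F (n + 1) → R, ∑ u : K, sn cs u • sn cs u • q =
        ((Fintype.card K : ℕ) : ℤ) • q := by
      intro q
      have : ∀ u : K, sn cs u • sn cs u • q = q := fun u => by
        rw [← mul_smul, sn_sq, one_smul]
      rw [Finset.sum_congr rfl fun u _ => this u, Finset.sum_const, Finset.card_univ,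
        natCast_zsmul]
    simp only [smul_sub, Finset.sum_sub_distrib]
    rw [e1, e5, e5]
    abel
  rw [e4] at h3
  refine tf hz (k := ((Fintype.card K : ℕ) : ℤ)) ?_ (hpc.sub hc) h3
  exact_mod_cast Fintype.card_ne_zero

theorem Ph_sub (H : Subgroup K) (i : ℕ) (c c' : F i → R) :
    Ph C H i (c - c') = Ph C H i c - Ph C H i c' := by
  funext x
  rw [Pi.sub_apply]
  unfold Ph
  split_ifs
  · rfl
  · rw [sub_zero]

theorem Ph_zsmul (H : Subgroup K) (i : ℕ) (n : ℤ) (c : F i → R) :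
    Ph C H i (n • c) = n • Ph C H i c := by
  funext x
  change _ = n • Ph C H i c x
  unfold Ph
  split_ifs
  · rfl
  · rw [smul_zero]

/-- the base case of the duality -/
theorem hz_base (h : RA bd cs C mir) {n : ℕ} (hz : 𝓕.HZ (fun _ => Set.univ) n)
    (hneg : 𝓕.Neg cs n) : 𝓕.HZ (SS C mir ∅ Set.univ) n := by
  obtain ⟨z₀, hz₀, hu⟩ := id hz
  refine ⟨Al cs C h.finite (par cs Set.univ) (n + 1) z₀, al_coc h _ n hz₀, fun c hc => ?_⟩
  have key : ∀ m : ℤ, 𝓕.Cob (SS C mir ∅ Set.univ) n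
      (c - m • Al cs C h.finite (par cs Set.univ) (n + 1) z₀) ↔
      𝓕.Cob (fun _ => Set.univ) n (Ph C (par cs (Set.univ : Set T)ᶜ) (n + 1) c - m • z₀) := by
    intro m
    rw [cob_iff h _ n (hc.sub ((al_coc h _ n hz₀).zsmul m)).supp, Ph_sub, Ph_zsmul]
    have h1 := (ph_al h hz hneg hz₀).zsmul m
    constructor
    · intro h2
      have h3 := h2.add h1
      rw [smul_sub, sub_add_sub_cancel] at h3
      exact h3
    · intro h2
      have h3 := h2.sub h1
      rw [smul_sub, sub_sub_sub_cancel_right] at h3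
      exact h3
  obtain ⟨m, hm, hm'⟩ := hu _ (ph_coc h _ n hc)
  exact ⟨m, (key m).2 hm, fun k hk => hm' k ((key k).1 hk)⟩

/-- vanishing for the faces, duality case -/
theorem van_SS' (hdd : DD bd) (h : RA bd cs C mir) {n : ℕ}
    (hv : ∀ i, i ≠ n → 𝓕.Van (fun _ => Set.univ) i)
    (hz : 𝓕.HZ (fun _ => Set.univ) n) (hneg : 𝓕.Neg cs n) (I : Finset T) :
    ∀ (J : Set T) (i : ℕ), (I : Set T) ∪ J ≠ Set.univ → 𝓕.Van (SS C mir I J) i := by
  classical
  induction I using Finset.induction_on with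
  | empty =>
    intro J i hJ
    rw [Finset.coe_empty] at hJ ⊢
    rw [Set.empty_union] at hJ
    exact van_base' h hv hz hneg J hJ i
  | insert s I _ ih =>
    intro J i hJ
    rw [Finset.coe_insert] at hJ ⊢
    refine van_Z hdd (cv_SS h I J) (cl_SS h I J s) (ih J i fun h1 => hJ ?_) ?_
    · rw [Set.insert_union, h1, Set.insert_eq_of_mem (Set.mem_univ s)]
    · rw [diff_SS]
      refine ih _ _ fun h1 => hJ ?_
      rw [Set.insert_union, ← Set.union_insert]
      exact h1

/-- **Duality for the faces.** -/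
theorem hz_SS (hdd : DD bd) (h : RA bd cs C mir) {n : ℕ}
    (hv : ∀ i, i ≠ n → 𝓕.Van (fun _ => Set.univ) i)
    (hz : 𝓕.HZ (fun _ => Set.univ) n) (hneg : 𝓕.Neg cs n) (I : Finset T) :
    ∀ (J : Set T) (k : ℕ), n = k + I.card → (I : Set T) ∪ J = Set.univ →
      Disjoint (I : Set T) J → 𝓕.HZ (SS C mir I J) k := by
  classical
  induction I using Finset.induction_on with
  | empty =>
    intro J k hk hJ _
    rw [Finset.coe_empty, Set.empty_union] at hJ
    rw [Finset.card_empty, add_zero] at hk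
    subst hk hJ
    rw [Finset.coe_empty]
    exact hz_base h hz hneg
  | insert s I hs ih =>
    intro J k hk hJ hd
    rw [Finset.card_insert_of_notMem hs] at hk
    rw [Finset.coe_insert] at hJ hd ⊢
    rw [Set.disjoint_insert_left] at hd
    have h1 : (I : Set T) ∪ J ≠ Set.univ := by
      intro h2
      have : s ∈ (I : Set T) ∪ J := by
        rw [h2]
        trivial
      rcases this with h3 | h3
      · exact hs h3
      · exact hd.1 h3
    refine hz_Z hdd (cv_SS h I J) (cl_SS h I J s) (van_SS' hdd h hv hz hneg I J k h1)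
      (van_SS' hdd h hv hz hneg I J (k + 1) h1) ?_
    rw [diff_SS]
    refine ih _ _ (by omega) ?_ ?_
    · rw [Set.union_insert, ← Set.insert_union]
      exact hJ
    · rw [Set.disjoint_insert_right]
      exact ⟨hs, hd.2⟩

end Sp

end

end Pool.Agent.U838.RT
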